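import Pool.Agent.PL.CZ.Rep

set_option autoImplicit false
set_option linter.unusedSectionVars false

/-! CZ-6. The formal idempotent is trivial.

`exists_functional`: `A` is a finite module without torsion over the domain `P`, and not zero: there
is a nonzero linear form (take a maximal linearly independent family of elements of `A`; the
quotient is torsion, so `p A` is contained in the free module spanned for some `p ≠ 0`; or a nonzero
linear form on the vector space `Frac P ⊗ A` and clear denominators on generators).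
`ar`: let `a_1, .., a_r` generate `A` over `P` and `Ψ : A → (Fin r → P)`, `w ↦ (λ(a_j w))_j`. `Ψ` is
`P`-linear and injective: if `w ≠ 0`, there is `a` with `a w = p ≠ 0` in `P` (`A` is integral over
`P` and a domain), and `λ(A w) = 0` gives `p λ(a') = λ(a' a w) = 0` for all `a'`, `λ = 0`.
By the Artin-Rees lemma (`Ideal.exists_pow_inf_eq_pow_smul`) for the range of `Ψ` there is `k` with
`xx ^ (k+1) (P ^ r) ∩ range Ψ ⊆ xx (range Ψ)`; so `Ψ w ∈ xx Ψ(A) = Ψ(xx A)`, `w ∈ xx A`.
`fidem_const`: let `λ ≠ 0`, `mu = ε λ` (`exists_eps`). If `mu = 0` then `λ(a b) ∈ xx ^ n` for all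
`a`, `n`, `b = b n i`; if `mu ≠ 0` then `mu (a (x_i ^ c n - b n i)) ∈ xx ^ n` by `eps_eps`. Apply `ar`
with `n = n₀`. -/

namespace Pool.Agent.PL.CZ

variable {κ τ A : Type} [Field κ] [CommRing A] [Algebra (PP κ τ) A]

theorem exists_functional [IsDomain A] [Module.Finite (PP κ τ) A]
    (hinj : Function.Injective (algebraMap (PP κ τ) A)) : ∃ lam : A →ₗ[PP κ τ] PP κ τ, lam ≠ 0 := by
  classical
  have : FaithfulSMul (PP κ τ) A := (faithfulSMul_iff_algebraMap_injective _ _).2 hinj
  let K := FractionRing (PP κ τ)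
  let L := FractionRing A
  let : Algebra K L := FractionRing.liftAlgebra (PP κ τ) L
  have : IsScalarTower (PP κ τ) K L := FractionRing.isScalarTower_liftAlgebra (PP κ τ) L
  obtain ⟨f, hf⟩ : ∃ f : Module.Dual K L, f 1 ≠ 0 := by
    by_contra hcon
    push Not at hcon
    exact one_ne_zero ((Module.forall_dual_apply_eq_zero_iff K (1 : L)).1 hcon)
  let g : A →ₗ[PP κ τ] K :=
    (f.restrictScalars (PP κ τ)) ∘ₗ (IsScalarTower.toAlgHom (PP κ τ) A L).toLinearMap
  have hg1 : g 1 ≠ 0 := by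
    simpa [g] using hf
  obtain ⟨s, hs⟩ := (Module.Finite.fg_top : (⊤ : Submodule (PP κ τ) A).FG)
  obtain ⟨b, hb⟩ := IsLocalization.exist_integer_multiples_of_finset
    (nonZeroDivisors (PP κ τ)) (s.image g)
  have hall : ∀ a : A, ((b : PP κ τ) • g) a ∈ LinearMap.range (Algebra.linearMap (PP κ τ) K) := by
    intro a
    have ha : a ∈ Submodule.span (PP κ τ) (s : Set A) := by rw [hs]; trivial
    refine Submodule.span_induction (p := fun x _ => ((b : PP κ τ) • g) x ∈
      LinearMap.range (Algebra.linearMap (PP κ τ) K)) ?_ ?_ ?_ ?_ ha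
    · intro x hx
      obtain ⟨y, hy⟩ := hb (g x) (Finset.mem_image_of_mem _ hx)
      exact ⟨y, by simpa [Submonoid.smul_def] using hy⟩
    · rw [map_zero]; exact Submodule.zero_mem _
    · intro x y _ _ hx hy
      rw [map_add]; exact Submodule.add_mem _ hx hy
    · intro c x _ hx
      rw [map_smul]; exact Submodule.smul_mem _ _ hx
  have hKinj : Function.Injective (Algebra.linearMap (PP κ τ) K) :=
    IsFractionRing.injective (PP κ τ) K
  let e := LinearEquiv.ofInjective (Algebra.linearMap (PP κ τ) K) hKinj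
  let lam : A →ₗ[PP κ τ] PP κ τ := e.symm.toLinearMap ∘ₗ
    (((b : PP κ τ) • g).codRestrict _ hall)
  refine ⟨lam, ?_⟩
  intro h0
  have h1 : lam 1 = 0 := by rw [h0]; rfl
  have h2 : ((((b : PP κ τ) • g).codRestrict _ hall) 1) = 0 := by
    have h3 : e.symm ((((b : PP κ τ) • g).codRestrict _ hall) 1) = 0 := h1
    exact (LinearEquiv.map_eq_zero_iff _).1 h3
  have h4 : ((b : PP κ τ) • g) 1 = 0 := by
    have := congrArg Subtype.val h2
    simpa using this
  rw [LinearMap.smul_apply, Algebra.smul_def] at h4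
  rcases mul_eq_zero.1 h4 with h5 | h5
  · have h6 : (b : PP κ τ) = 0 := hKinj (by simpa using h5)
    exact nonZeroDivisors.coe_ne_zero b h6
  · exact hg1 h5

theorem ar [Finite τ] [IsDomain A] [Module.Finite (PP κ τ) A]
    (hinj : Function.Injective (algebraMap (PP κ τ) A)) (lam : A →ₗ[PP κ τ] PP κ τ)
    (hlam : lam ≠ 0) : ∃ n₀, 1 ≤ n₀ ∧ ∀ w : A, (∀ a, lam (a * w) ∈ xx κ τ ^ n₀) →
      w ∈ (xx κ τ).map (algebraMap (PP κ τ) A) := by
  classical
  have : FaithfulSMul (PP κ τ) A := (faithfulSMul_iff_algebraMap_injective _ _).2 hinj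
  obtain ⟨r, a, ha⟩ := Module.Finite.exists_fin (R := PP κ τ) (M := A)
  let Ψ : A →ₗ[PP κ τ] (Fin r → PP κ τ) :=
    LinearMap.pi fun j => lam ∘ₗ LinearMap.mulLeft (PP κ τ) (a j)
  have hΨ : ∀ w j, Ψ w j = lam (a j * w) := fun w j => rfl
  have hker : Function.Injective Ψ := by
    rw [injective_iff_map_eq_zero]
    intro w hw
    by_contra hw0
    have h1 : ∀ y : A, lam (y * w) = 0 := by
      intro y
      have hy : y ∈ Submodule.span (PP κ τ) (Set.range a) := by rw [ha]; trivial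
      refine Submodule.span_induction (p := fun x _ => lam (x * w) = 0) ?_ ?_ ?_ ?_ hy
      · rintro _ ⟨j, rfl⟩
        rw [← hΨ, hw]; rfl
      · rw [zero_mul, map_zero]
      · intro x y _ _ hx hy
        rw [add_mul, map_add, hx, hy, add_zero]
      · intro c x _ hx
        rw [smul_mul_assoc, map_smul, hx, smul_zero]
    have halg : IsAlgebraic (PP κ τ) w :=
      (Algebra.IsIntegral.isIntegral (R := PP κ τ) w).isAlgebraic
    obtain ⟨p, hp0, c, hc⟩ := halg.exists_nonzero_dvd (mem_nonZeroDivisors_of_ne_zero hw0)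
    apply hlam
    ext y
    have h2 : lam ((y * c) * w) = p * lam y := by
      have : (y * c) * w = p • y := by
        rw [Algebra.smul_def, hc]; ring
      rw [this, map_smul, smul_eq_mul]
    rw [h1] at h2
    have h3 : lam y = 0 := by
      rcases mul_eq_zero.1 h2.symm with h | h
      · exact absurd h hp0
      · exact h
    rw [h3]; simp
  obtain ⟨k, hk⟩ := Ideal.exists_pow_inf_eq_pow_smul (xx κ τ) (LinearMap.range Ψ)
  refine ⟨k + 1, by omega, ?_⟩
  intro w hw
  have h1 : Ψ w ∈ (xx κ τ) ^ (k + 1) • (⊤ : Submodule (PP κ τ) (Fin r → PP κ τ)) := by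
    have h2 : Ψ w = ∑ j, Ψ w j • (Pi.single j 1 : Fin r → PP κ τ) := by
      funext i
      simp [Finset.sum_apply, Pi.single_apply]
    rw [h2]
    refine Submodule.sum_mem _ fun j _ => ?_
    exact Submodule.smul_mem_smul (hw (a j)) trivial
  have h2 : Ψ w ∈ (xx κ τ) ^ (k + 1) • (⊤ : Submodule (PP κ τ) (Fin r → PP κ τ)) ⊓
      LinearMap.range Ψ := ⟨h1, ⟨w, rfl⟩⟩
  rw [hk (k + 1) (by omega)] at h2
  have h3 : (k + 1 - k) = 1 := by omega
  rw [h3, pow_one] at h2
  have h4 : Ψ w ∈ (xx κ τ) • LinearMap.range Ψ := Submodule.smul_mono le_rfl inf_le_right h2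
  rw [LinearMap.range_eq_map, ← Submodule.map_smul''] at h4
  obtain ⟨w', hw', hww⟩ := h4
  have h5 : w' = w := hker hww
  rw [h5] at hw'
  have h6 : w ∈ (xx κ τ) • (⊤ : Submodule (PP κ τ) A) := hw'
  rw [Ideal.smul_top_eq_map] at h6
  exact h6

theorem fidem_const [Finite τ] (hτ : ∃ i j : τ, i ≠ j) [IsDomain A] [Module.Finite (PP κ τ) A]
    (hinj : Function.Injective (algebraMap (PP κ τ) A)) (E : FIdem κ τ A) :
    ∃ n, 1 ≤ n ∧ ((∀ i, E.b n i ∈ (xx κ τ).map (algebraMap (PP κ τ) A)) ∨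
      ∀ i, xr κ A i ^ E.c n - E.b n i ∈ (xx κ τ).map (algebraMap (PP κ τ) A)) := by
  classical
  obtain ⟨lam, hlam⟩ := exists_functional (κ := κ) (τ := τ) (A := A) hinj
  obtain ⟨mu, hmu⟩ := exists_eps E hτ lam
  by_cases h0 : mu = 0
  · obtain ⟨n₀, hn₀, har⟩ := ar hinj lam hlam
    refine ⟨n₀, hn₀, Or.inl fun i => har _ fun a => ?_⟩
    have h1 := hmu a n₀ i
    rw [h0] at h1
    have h2 : lam (a * E.b n₀ i) = -(MvPolynomial.X (Sum.inr i) ^ E.c n₀ *
      (0 : A →ₗ[PP κ τ] PP κ τ) a - lam (a * E.b n₀ i)) := by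
      simp
    rw [h2]
    exact (Ideal.neg_mem_iff _).2 h1
  · obtain ⟨n₀, hn₀, har⟩ := ar hinj mu h0
    refine ⟨n₀, hn₀, Or.inr fun i => har _ fun a => ?_⟩
    have h1 := eps_eps E lam mu hmu a n₀ i
    have h2 : mu (a * (xr κ A i ^ E.c n₀ - E.b n₀ i)) =
        MvPolynomial.X (Sum.inr i) ^ E.c n₀ * mu a - mu (a * E.b n₀ i) := by
      rw [mul_sub, map_sub]
      congr 1
      have h3 : a * xr κ A i ^ E.c n₀ =
          (MvPolynomial.X (Sum.inr i) ^ E.c n₀ : PP κ τ) • a := by
        rw [Algebra.smul_def, map_pow, mul_comm]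
        rfl
      rw [h3, map_smul, smul_eq_mul]
    rw [h2]
    exact h1

end Pool.Agent.PL.CZ
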