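import Pool.Agent.PL.CZ.Defs

set_option autoImplicit false
set_option linter.unusedSectionVars false

/-! CZ-8a. Homogeneous elements in some primes and not in others.

`exists_avoid`: for `𝔭 ∈ S` and every `𝔮 ∈ S ∪ S'`, `𝔮 ≠ 𝔭`, there is `f ∈ 𝔮`, `f ∉ 𝔭`, and some
homogeneous component of `f` is not in `𝔭` and in `𝔮` (`HomI 𝔮`); let `h_𝔭` be the product of
these homogeneous elements and of a variable `X_j ∉ 𝔭`; it is homogeneous of positive degree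
`e_𝔭`, in all `𝔮 ≠ 𝔭` and not in `𝔭`. Let `e = ∏ e_𝔭` and `H = ∑_(𝔭 ∈ S) h_𝔭 ^ (e / e_𝔭)`. If
`S` is empty, `H = 0`, `e = 1`.
`homI_minimal`: a minimal prime over a homogeneous ideal is homogeneous: its homogeneous core is a
prime (`Ideal.IsPrime.homogeneousCore`) which contains the ideal. -/

namespace Pool.Agent.PL.CZ

section Graded

attribute [local instance] MvPolynomial.gradedAlgebra

theorem decompose_coe {κ σ : Type} [Field κ] (f : MvPolynomial σ κ) (d : ℕ) :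
    (DirectSum.decompose (MvPolynomial.homogeneousSubmodule σ κ) f d : MvPolynomial σ κ) =
      MvPolynomial.homogeneousComponent d f :=
  MvPolynomial.decomposition.decompose'_apply (σ := σ) (R := κ) f d

theorem homI_iff {κ σ : Type} [Field κ] (J : Ideal (MvPolynomial σ κ)) :
    HomI J ↔ J.IsHomogeneous (MvPolynomial.homogeneousSubmodule σ κ) := by
  constructor
  · intro h i f hf
    rw [decompose_coe]
    exact h f hf i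
  · intro h f hf d
    have := h d hf
    rwa [decompose_coe] at this

theorem homI_minimal_aux {κ σ : Type} [Field κ] (J 𝔭 : Ideal (MvPolynomial σ κ)) (hJ : HomI J)
    (h𝔭 : 𝔭 ∈ J.minimalPrimes) : HomI 𝔭 := by
  have hp : 𝔭.IsPrime := h𝔭.1.1
  have hJp : J ≤ 𝔭 := h𝔭.1.2
  have h1 : (𝔭.homogeneousCore (MvPolynomial.homogeneousSubmodule σ κ)).toIdeal.IsPrime :=
    hp.homogeneousCore
  have h2 : J ≤ (𝔭.homogeneousCore (MvPolynomial.homogeneousSubmodule σ κ)).toIdeal := by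
    have h3 := ((homI_iff J).1 hJ).toIdeal_homogeneousCore_eq_self
    rw [← h3]
    exact Ideal.homogeneousCore_mono _ hJp
  have h3 : (𝔭.homogeneousCore (MvPolynomial.homogeneousSubmodule σ κ)).toIdeal ≤ 𝔭 :=
    Ideal.toIdeal_homogeneousCore_le _ _
  have h4 : 𝔭 ≤ (𝔭.homogeneousCore (MvPolynomial.homogeneousSubmodule σ κ)).toIdeal :=
    h𝔭.2 ⟨h1, h2⟩ h3
  rw [homI_iff, le_antisymm h4 h3]
  exact HomogeneousIdeal.isHomogeneous _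

theorem homI_span_aux {κ σ : Type} [Field κ] (S : Set (MvPolynomial σ κ))
    (hS : ∀ f ∈ S, ∃ d, f.IsHomogeneous d) : HomI (Ideal.span S) := by
  rw [homI_iff]
  refine Ideal.homogeneous_span _ _ ?_
  intro f hf
  obtain ⟨d, hd⟩ := hS f hf
  exact ⟨d, (MvPolynomial.mem_homogeneousSubmodule d f).2 hd⟩

theorem homI_sup_aux {κ σ : Type} [Field κ] (J J' : Ideal (MvPolynomial σ κ)) (hJ : HomI J)
    (hJ' : HomI J') : HomI (J ⊔ J') := by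
  rw [homI_iff] at *
  exact hJ.sup hJ'

end Graded

theorem homI_minimal {κ σ : Type} [Field κ] (J 𝔭 : Ideal (MvPolynomial σ κ)) (hJ : HomI J)
    (h𝔭 : 𝔭 ∈ J.minimalPrimes) : HomI 𝔭 :=
  homI_minimal_aux J 𝔭 hJ h𝔭

theorem homI_span {κ σ : Type} [Field κ] (S : Set (MvPolynomial σ κ))
    (hS : ∀ f ∈ S, ∃ d, f.IsHomogeneous d) : HomI (Ideal.span S) :=
  homI_span_aux S hS

theorem homI_sup {κ σ : Type} [Field κ] (J : Ideal (MvPolynomial σ κ)) (hJ : HomI J)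
    (F : MvPolynomial σ κ) (m : ℕ) (hF : F.IsHomogeneous m) : HomI (J ⊔ Ideal.span {F}) := by
  refine homI_sup_aux _ _ hJ (homI_span _ ?_)
  intro f hf
  rw [Set.mem_singleton_iff] at hf
  exact ⟨m, hf ▸ hF⟩

theorem exists_hom_mem {κ σ : Type} [Field κ] (𝔭 𝔮 : Ideal (MvPolynomial σ κ)) (hq : HomI 𝔮)
    (h : ¬ 𝔮 ≤ 𝔭) : ∃ (d : ℕ) (g : MvPolynomial σ κ), g.IsHomogeneous d ∧ g ∉ 𝔭 ∧ g ∈ 𝔮 := by
  obtain ⟨f, hf, hfp⟩ := SetLike.not_le_iff_exists.1 h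
  by_contra hcon
  push Not at hcon
  apply hfp
  rw [← MvPolynomial.sum_homogeneousComponent f]
  refine Ideal.sum_mem _ fun i _ => ?_
  by_contra hi
  exact hcon i _ (MvPolynomial.homogeneousComponent_isHomogeneous i f) hi (hq f hf i)

theorem exists_hom_mem_all {κ σ : Type} [Field κ] (𝔭 : Ideal (MvPolynomial σ κ)) (hp : 𝔭.IsPrime)
    (T : Finset (Ideal (MvPolynomial σ κ))) (hT : ∀ 𝔮 ∈ T, HomI 𝔮) (h : ∀ 𝔮 ∈ T, ¬ 𝔮 ≤ 𝔭) :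
    ∃ (d : ℕ) (g : MvPolynomial σ κ), g.IsHomogeneous d ∧ g ∉ 𝔭 ∧ ∀ 𝔮 ∈ T, g ∈ 𝔮 := by
  classical
  induction T using Finset.induction_on with
  | empty =>
    refine ⟨0, 1, MvPolynomial.isHomogeneous_one σ κ, ?_, by simp⟩
    intro h1
    exact hp.ne_top ((Ideal.eq_top_iff_one _).2 h1)
  | insert 𝔮 T hq ih =>
    obtain ⟨d, g, hg, hgp, hgq⟩ := ih (fun 𝔯 hr => hT 𝔯 (Finset.mem_insert_of_mem hr))
      (fun 𝔯 hr => h 𝔯 (Finset.mem_insert_of_mem hr))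
    obtain ⟨d', g', hg', hgp', hgq'⟩ := exists_hom_mem 𝔭 𝔮 (hT 𝔮 (Finset.mem_insert_self _ _))
      (h 𝔮 (Finset.mem_insert_self _ _))
    refine ⟨d + d', g * g', hg.mul hg', ?_, ?_⟩
    · intro h1
      rcases hp.mem_or_mem h1 with h2 | h2
      · exact hgp h2
      · exact hgp' h2
    · intro 𝔯 hr
      rcases Finset.mem_insert.1 hr with rfl | hr
      · exact Ideal.mul_mem_left _ _ hgq'
      · exact Ideal.mul_mem_right _ _ (hgq 𝔯 hr)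

theorem exists_avoid {κ σ : Type} [Field κ] (S S' : Finset (Ideal (MvPolynomial σ κ)))
    (hp : ∀ 𝔭 ∈ S, 𝔭.IsPrime) (hh : ∀ 𝔭 ∈ S, HomI 𝔭) (hh' : ∀ 𝔭 ∈ S', HomI 𝔭)
    (hinc : ∀ 𝔭 ∈ S, ∀ 𝔮 ∈ S, 𝔮 ≠ 𝔭 → ¬ 𝔮 ≤ 𝔭) (hinc' : ∀ 𝔭 ∈ S, ∀ 𝔮 ∈ S', ¬ 𝔮 ≤ 𝔭)
    (hX : ∀ 𝔭 ∈ S, ∃ j : σ, MvPolynomial.X j ∉ 𝔭) :
    ∃ (e : ℕ) (H : MvPolynomial σ κ), 1 ≤ e ∧ H.IsHomogeneous e ∧ (∀ 𝔭 ∈ S, H ∉ 𝔭) ∧
      ∀ 𝔭 ∈ S', H ∈ 𝔭 := by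
  classical
  have key : ∀ 𝔭 : Ideal (MvPolynomial σ κ), ∃ (d : ℕ) (g : MvPolynomial σ κ), 𝔭 ∈ S →
      1 ≤ d ∧ g.IsHomogeneous d ∧ g ∉ 𝔭 ∧ (∀ 𝔮 ∈ S, 𝔮 ≠ 𝔭 → g ∈ 𝔮) ∧ ∀ 𝔮 ∈ S', g ∈ 𝔮 := by
    intro 𝔭
    by_cases h𝔭 : 𝔭 ∈ S
    · obtain ⟨j, hj⟩ := hX 𝔭 h𝔭
      obtain ⟨d, g, hg, hgp, hgq⟩ := exists_hom_mem_all 𝔭 (hp 𝔭 h𝔭) (S.erase 𝔭 ∪ S')
        (by
          intro 𝔮 hq
          rcases Finset.mem_union.1 hq with hq | hq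
          · exact hh 𝔮 (Finset.mem_of_mem_erase hq)
          · exact hh' 𝔮 hq)
        (by
          intro 𝔮 hq
          rcases Finset.mem_union.1 hq with hq | hq
          · exact hinc 𝔭 h𝔭 𝔮 (Finset.mem_of_mem_erase hq) (Finset.ne_of_mem_erase hq)
          · exact hinc' 𝔭 h𝔭 𝔮 hq)
      refine ⟨d + 1, g * MvPolynomial.X j, fun _ => ⟨by omega,
        hg.mul (MvPolynomial.isHomogeneous_X κ j), ?_, ?_, ?_⟩⟩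
      · intro h1
        rcases (hp 𝔭 h𝔭).mem_or_mem h1 with h2 | h2
        · exact hgp h2
        · exact hj h2
      · intro 𝔮 hq hne
        exact Ideal.mul_mem_right _ _
          (hgq 𝔮 (Finset.mem_union_left _ (Finset.mem_erase.2 ⟨hne, hq⟩)))
      · intro 𝔮 hq
        exact Ideal.mul_mem_right _ _ (hgq 𝔮 (Finset.mem_union_right _ hq))
    · exact ⟨0, 0, fun h => absurd h h𝔭⟩
  choose d g hdg using key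
  have he : 1 ≤ ∏ 𝔭 ∈ S, d 𝔭 :=
    Nat.one_le_iff_ne_zero.2 (Finset.prod_ne_zero_iff.2 fun 𝔭 h𝔭 => by
      have := (hdg 𝔭 h𝔭).1
      omega)
  have hdvd : ∀ 𝔭 ∈ S, d 𝔭 ∣ ∏ 𝔭 ∈ S, d 𝔭 := fun 𝔭 h𝔭 => Finset.dvd_prod_of_mem d h𝔭
  have hk : ∀ 𝔭 ∈ S, (∏ 𝔭 ∈ S, d 𝔭) / d 𝔭 ≠ 0 := by
    intro 𝔭 h𝔭 h0
    have h1 := Nat.div_mul_cancel (hdvd 𝔭 h𝔭)
    rw [h0, Nat.zero_mul] at h1
    omega
  refine ⟨∏ 𝔭 ∈ S, d 𝔭, ∑ 𝔭 ∈ S, g 𝔭 ^ ((∏ 𝔭 ∈ S, d 𝔭) / d 𝔭), he, ?_, ?_, ?_⟩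
  · refine MvPolynomial.IsHomogeneous.sum _ _ _ ?_
    intro 𝔭 h𝔭
    have h1 := (hdg 𝔭 h𝔭).2.1.pow ((∏ 𝔭 ∈ S, d 𝔭) / d 𝔭)
    rwa [Nat.mul_div_cancel' (hdvd 𝔭 h𝔭)] at h1
  · intro 𝔭 h𝔭 hmem
    rw [← Finset.add_sum_erase S _ h𝔭] at hmem
    have h1 : ∑ 𝔮 ∈ S.erase 𝔭, g 𝔮 ^ ((∏ 𝔭 ∈ S, d 𝔭) / d 𝔮) ∈ 𝔭 := by
      refine Ideal.sum_mem _ fun 𝔮 hq => ?_
      have hqS := Finset.mem_of_mem_erase hq
      exact Ideal.pow_mem_of_mem _ ((hdg 𝔮 hqS).2.2.2.1 𝔭 h𝔭 (Finset.ne_of_mem_erase hq).symm) _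
        (Nat.pos_of_ne_zero (hk 𝔮 hqS))
    have h2 := (Ideal.add_mem_iff_left 𝔭 h1).1 hmem
    exact (hdg 𝔭 h𝔭).2.2.1 ((hp 𝔭 h𝔭).mem_of_pow_mem _ h2)
  · intro 𝔮 hq
    refine Ideal.sum_mem _ fun 𝔭 h𝔭 => ?_
    exact Ideal.pow_mem_of_mem _ ((hdg 𝔭 h𝔭).2.2.2.2 𝔮 hq) _ (Nat.pos_of_ne_zero (hk 𝔭 h𝔭))

end Pool.Agent.PL.CZ
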