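import Pool.Agent.PL.CZ.Red
import Pool.Agent.PL.Defs
import Pool.Agent.Helper16.BBLineB
import Pool.Agent.Helper16.GC12
import Pool.Agent.ThF.Main

set_option autoImplicit false
set_option linter.unusedSectionVars false

/-! CZ-9. The base locus of a pencil on a variety of dimension at least three is connected.

`κ` the algebraic closure of `k`, `J = geomI I`, homogeneous (`homI_span`), `F'`, `G'` the images of
`F`, `G`. `trdeg κ[σ]/J = s + 2`, `s ≥ 2` (`trdeg_nat`, PL/Alg). Let `A`, `B` be as in `ConnZ`. If `A`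
contains a nonzero constant, then `A` vanishes at no point, so by hypothesis `B` vanishes at all
points of `Z`; the same for `B`. Otherwise all elements of `A`, `B` vanish at `0` (homogeneous, not
nonzero constants). Let `𝔞`, `𝔟` be the ideals generated by `J`, `F'`, `G'` and `A`, resp. `B`.
`hcover`: for `z = 0` all elements of `𝔞` vanish at `0` (the elements of `J` vanish at `0`: `I`
consists of homogeneous polynomials, and no nonzero constant is in `J`, a proper ideal), for `z ≠ 0`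
use the hypothesis for `z`, a point of `Z`. `hdisj`: the same. `gen_case` gives, say, that `0` is the
only zero of `𝔞`; then `A` vanishes at no point of `Z`, so `B` vanishes at all points of `Z`. -/

namespace Pool.Agent.PL

open Pool.Agent.Helper16 Pool.Agent.Helper16.BB Pool.Agent.ThF

theorem conn_span {κ σ : Type} [Field κ] (S : Set (MvPolynomial σ κ)) (z : σ → κ) :
    (∀ Q ∈ Ideal.span S, MvPolynomial.aeval z Q = 0) ↔ ∀ Q ∈ S, MvPolynomial.aeval z Q = 0 := by
  constructor
  · intro h Q hQ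
    exact h Q (Ideal.subset_span hQ)
  · intro h Q hQ
    have h1 : Ideal.span S ≤ RingHom.ker (MvPolynomial.aeval z : MvPolynomial σ κ →ₐ[κ] κ) := by
      rw [Ideal.span_le]
      intro P hP
      exact h P hP
    exact h1 hQ

theorem conn_const {κ σ : Type} [Field κ] (P : MvPolynomial σ κ) (d : ℕ)
    (hP : P.IsHomogeneous d) (h : MvPolynomial.aeval (0 : σ → κ) P ≠ 0) (z : σ → κ) :
    MvPolynomial.aeval z P ≠ 0 := by
  rcases Nat.eq_zero_or_pos d with hd | hd
  · rw [hd] at hP
    have h1 : P = MvPolynomial.C (MvPolynomial.coeff 0 P) :=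
      (MvPolynomial.totalDegree_eq_zero_iff_eq_C).1 (Nat.le_zero.1 hP.totalDegree_le)
    intro h2
    apply h
    rw [h1, MvPolynomial.aeval_C] at h2 ⊢
    exact h2
  · exact absurd (CZ.par_hom_zero P d hd hP) h

theorem conn_z {k σ : Type} [Field k] [Finite σ] {I : Set (MvPolynomial σ k)}
    {F G : MvPolynomial σ k} {m : ℕ} (hD : Dat I F G m) (hprime : (geomI I).IsPrime)
    (hdim : ((4 : ℕ) : Cardinal) ≤ Algebra.trdeg (AlgebraicClosure k)
      (MvPolynomial σ (AlgebraicClosure k) ⧸ geomI I)) : ConnZ I F G := by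
  classical
  intro A B hAB hz
  -- the easy cases
  by_cases hA : ∃ P ∈ A, MvPolynomial.aeval (0 : σ → AlgebraicClosure k) P ≠ 0
  · obtain ⟨P, hPA, hP⟩ := hA
    obtain ⟨d, hd⟩ := hAB P (Or.inl hPA)
    right
    intro z hz1
    by_contra hcon
    have h1 := (hz z hz1).2 hcon P hPA
    exact conn_const P d hd hP z h1
  by_cases hB : ∃ P ∈ B, MvPolynomial.aeval (0 : σ → AlgebraicClosure k) P ≠ 0
  · obtain ⟨P, hPB, hP⟩ := hB
    obtain ⟨d, hd⟩ := hAB P (Or.inr hPB)
    left
    intro z hz1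
    rw [hz z hz1]
    intro hcon
    exact conn_const P d hd hP z (hcon P hPB)
  push Not at hA hB
  obtain ⟨d, hd⟩ := trdeg_nat (κ := AlgebraicClosure k) (geomI I) hprime
  rw [hd] at hdim
  have hd4 : 4 ≤ d := by exact_mod_cast hdim
  set F' := MvPolynomial.map (algebraMap k (AlgebraicClosure k)) F with hF'
  set G' := MvPolynomial.map (algebraMap k (AlgebraicClosure k)) G with hG'
  set SI : Set (MvPolynomial σ (AlgebraicClosure k)) :=
    {Q' | ∃ Q ∈ I, MvPolynomial.map (algebraMap k (AlgebraicClosure k)) Q = Q'} with hSI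
  have hJ : geomI I = Ideal.span SI := rfl
  have hFh : F'.IsHomogeneous m := hD.hF.map _
  have hGh : G'.IsHomogeneous m := hD.hG.map _
  have hSIh : ∀ f ∈ SI, ∃ e, f.IsHomogeneous e := by
    rintro _ ⟨Q, hQ, rfl⟩
    obtain ⟨e, he⟩ := hD.hI Q hQ
    exact ⟨e, he.map _⟩
  have hev : ∀ (z : σ → AlgebraicClosure k) (Q : MvPolynomial σ k),
      MvPolynomial.aeval z (MvPolynomial.map (algebraMap k (AlgebraicClosure k)) Q) =
        MvPolynomial.aeval z Q := by
    intro z Q
    rw [MvPolynomial.aeval_map_algebraMap]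
  have hzpt : ∀ z : σ → AlgebraicClosure k, z ≠ 0 → (∀ Q ∈ geomI I, MvPolynomial.aeval z Q = 0) →
      MvPolynomial.aeval z F' = 0 → MvPolynomial.aeval z G' = 0 → ZPt I F G z := by
    intro z hz0 h1 h2 h3
    refine ⟨hz0, fun Q hQ => ?_, ?_, ?_⟩
    · rw [← hev]
      exact h1 _ (Ideal.subset_span ⟨Q, hQ, rfl⟩)
    · rw [← hev]
      exact h2
    · rw [← hev]
      exact h3
  have hsub : ∀ C : Set (MvPolynomial σ (AlgebraicClosure k)),
      ((∀ P ∈ C, ∃ e, P.IsHomogeneous e) → CZ.HomI (Ideal.span (SI ∪ {F', G'} ∪ C))) ∧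
      geomI I ≤ Ideal.span (SI ∪ {F', G'} ∪ C) ∧ F' ∈ Ideal.span (SI ∪ {F', G'} ∪ C) ∧
      G' ∈ Ideal.span (SI ∪ {F', G'} ∪ C) ∧
      ∀ z : σ → AlgebraicClosure k, (∀ Q ∈ Ideal.span (SI ∪ {F', G'} ∪ C),
        MvPolynomial.aeval z Q = 0) ↔ (∀ Q ∈ geomI I, MvPolynomial.aeval z Q = 0) ∧
        MvPolynomial.aeval z F' = 0 ∧ MvPolynomial.aeval z G' = 0 ∧
        ∀ Q ∈ C, MvPolynomial.aeval z Q = 0 := by
    intro C
    refine ⟨?_, ?_, ?_, ?_, ?_⟩
    · intro hC
      apply CZ.homI_span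
      rintro f ((hf | hf) | hf)
      · exact hSIh f hf
      · rw [Set.mem_insert_iff, Set.mem_singleton_iff] at hf
        rcases hf with hf | hf
        · exact ⟨m, hf ▸ hFh⟩
        · exact ⟨m, hf ▸ hGh⟩
      · exact hC f hf
    · rw [hJ]
      apply Ideal.span_mono
      intro f hf
      exact Or.inl (Or.inl hf)
    · exact Ideal.subset_span (Or.inl (Or.inr (Set.mem_insert _ _)))
    · exact Ideal.subset_span (Or.inl (Or.inr (Set.mem_insert_of_mem _ (Set.mem_singleton _))))
    · intro z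
      rw [conn_span, hJ, conn_span]
      constructor
      · intro h
        exact ⟨fun Q hQ => h Q (Or.inl (Or.inl hQ)),
          h F' (Or.inl (Or.inr (Set.mem_insert _ _))),
          h G' (Or.inl (Or.inr (Set.mem_insert_of_mem _ (Set.mem_singleton _)))),
          fun Q hQ => h Q (Or.inr hQ)⟩
      · rintro ⟨h1, h2, h3, h4⟩ f ((hf | hf) | hf)
        · exact h1 f hf
        · rw [Set.mem_insert_iff, Set.mem_singleton_iff] at hf
          rcases hf with hf | hf
          · rw [hf]; exact h2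
          · rw [hf]; exact h3
        · exact h4 f hf
  obtain ⟨a1, a2, a3, a4, a5⟩ := hsub A
  obtain ⟨b1, b2, b3, b4, b5⟩ := hsub B
  have hmain := CZ.gen_case (geomI I) hprime (by rw [hJ]; exact CZ.homI_span _ hSIh) (d - 2)
    (by omega) (by rw [hd]; congr 1; omega) F' G' m m hD.hm hD.hm hFh hGh
    (Ideal.span (SI ∪ {F', G'} ∪ A)) (Ideal.span (SI ∪ {F', G'} ∪ B))
    (a1 fun P hP => hAB P (Or.inl hP)) (b1 fun P hP => hAB P (Or.inr hP)) a2 b2 a3 a4 b3 b4
    (by
      intro z h1 h2 h3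
      rw [a5, b5]
      by_cases hz0 : z = 0
      · left
        refine ⟨h1, h2, h3, ?_⟩
        rw [hz0]
        exact hA
      · by_cases h : ∀ P ∈ A, MvPolynomial.aeval z P = 0
        · exact Or.inl ⟨h1, h2, h3, h⟩
        · right
          refine ⟨h1, h2, h3, ?_⟩
          by_contra hcon
          exact h ((hz z (hzpt z hz0 h1 h2 h3)).2 hcon))
    (by
      intro z h1 h2
      rw [a5] at h1
      rw [b5] at h2
      by_contra hz0
      exact (hz z (hzpt z hz0 h1.1 h1.2.1 h1.2.2.1)).1 h1.2.2.2 h2.2.2.2)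
  have hpt : ∀ z, ZPt I F G z → (∀ Q ∈ geomI I, MvPolynomial.aeval z Q = 0) ∧
      MvPolynomial.aeval z F' = 0 ∧ MvPolynomial.aeval z G' = 0 := by
    intro z hz1
    refine ⟨?_, ?_, ?_⟩
    · rw [hJ, conn_span]
      rintro _ ⟨Q, hQ, rfl⟩
      rw [hev]
      exact hz1.2.1 Q hQ
    · rw [hF', hev]
      exact hz1.2.2.1
    · rw [hG', hev]
      exact hz1.2.2.2
  rcases hmain with h | h
  · right
    intro z hz1
    by_contra hcon
    have h1 := (hz z hz1).2 hcon
    obtain ⟨h2, h3, h4⟩ := hpt z hz1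
    exact hz1.1 (h z ((a5 z).2 ⟨h2, h3, h4, h1⟩))
  · left
    intro z hz1
    rw [hz z hz1]
    intro h1
    obtain ⟨h2, h3, h4⟩ := hpt z hz1
    exact hz1.1 (h z ((b5 z).2 ⟨h2, h3, h4, h1⟩))

end Pool.Agent.PL
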