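import Mathlib

set_option autoImplicit false
set_option linter.unusedSectionVars false

/-! Project PL (helper19), MP_0b9e0b_ag, part CZ: connectedness of the base locus (a graded
connectedness theorem, Grothendieck / Fulton-Hansen). Definitions.

`κ` is an algebraically closed field, `J` a homogeneous prime of `κ[σ]`, `A = κ[σ]/J`, `F`, `G` forms
of positive degree. If `l_i` (`i ∈ τ`) are linear forms such that `F`, `G`, `l_i` is a homogeneous
system of parameters of `A`, then `A` is a finite module over `P = κ[Fin 2 ⊕ τ]`, where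
`X (inl 0) ↦ F`, `X (inl 1) ↦ G`, `X (inr i) ↦ l_i`, and `P → A` is injective. A decomposition of
`V(F, G)` into two closed sets which meet only at the origin gives an idempotent in the formal
completion along `V(F, G)`, outside of the origin (`FIdem`). For a `P`-linear map `λ : A → P` and
`a ∈ A`, `λ(e a)` is a formal function on the complement of the origin in `Spec P`, completed along
`X (inl 0) = X (inl 1) = 0`, which is homogeneous and extends to the origin as `|τ| ≥ 2`, so it is a
polynomial. So `e` acts on `Hom_P(A, P)`, and it has an eigenvector `λ` with eigenvalue `0` or `1`,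
and this shows that `e` is `0` or `1`. -/

namespace Pool.Agent.PL.CZ

/-- The polynomial ring `P`. -/
abbrev PP (κ τ : Type) [Field κ] : Type := MvPolynomial (Fin 2 ⊕ τ) κ

/-- Homogeneous ideals. -/
def HomI {κ σ : Type} [Field κ] (J : Ideal (MvPolynomial σ κ)) : Prop :=
  ∀ f ∈ J, ∀ d, MvPolynomial.homogeneousComponent d f ∈ J

/-- The ideal generated by the first two variables. -/
noncomputable def xx (κ τ : Type) [Field κ] : Ideal (PP κ τ) :=
  Ideal.span (Set.range fun i : Fin 2 => (MvPolynomial.X (Sum.inl i) : PP κ τ))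

/-- `κ[σ]/J` is generated as a module over `P` by finitely many elements `a_j`, in such a way that
polynomials of degree at most `d` are combinations with coefficients of degree at most `d`. -/
def Gen {κ σ τ : Type} [Field κ] (J : Ideal (MvPolynomial σ κ))
    (x : Fin 2 ⊕ τ → MvPolynomial σ κ) : Prop :=
  ∃ (r : ℕ) (a : Fin r → MvPolynomial σ κ), ∀ (d : ℕ) (f : MvPolynomial σ κ),
    f.totalDegree ≤ d → ∃ p : Fin r → PP κ τ, (∀ j, (p j).totalDegree ≤ d) ∧
      f - ∑ j, MvPolynomial.aeval x (p j) * a j ∈ J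

/-- The variable `X (inr i)` as an element of `A`. -/
noncomputable def xr (κ : Type) {τ : Type} [Field κ] (A : Type) [CommRing A]
    [Algebra (PP κ τ) A] (i : τ) : A :=
  algebraMap (PP κ τ) A (MvPolynomial.X (Sum.inr i))

/-- A formal idempotent: it is `b n i / x_i ^ c n` modulo `(X (inl 0), X (inl 1)) ^ n` where
`X (inr i)` is invertible. -/
structure FIdem (κ τ A : Type) [Field κ] [CommRing A] [Algebra (PP κ τ) A] where
  b : ℕ → τ → A
  c : ℕ → ℕ
  idem : ∀ n i, b n i * b n i - xr κ A i ^ c n * b n i ∈ (xx κ τ ^ n).map (algebraMap (PP κ τ) A)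
  glue : ∀ n i j, ∃ M, xr κ A i ^ M * (xr κ A j ^ c n * b n i - xr κ A i ^ c n * b n j) ∈
    (xx κ τ ^ n).map (algebraMap (PP κ τ) A)
  comp : ∀ n i, ∃ M, xr κ A i ^ M * (xr κ A i ^ c n * b (n + 1) i - xr κ A i ^ c (n + 1) * b n i) ∈
    (xx κ τ ^ n).map (algebraMap (PP κ τ) A)
  bdd : ∀ (lam : A →ₗ[PP κ τ] PP κ τ) (a : A), ∃ C, ∀ n i,
    (lam (a * b n i)).totalDegree ≤ c n + C

/-- `T` represents `λ(e a)`. -/
def Rp {κ τ A : Type} [Field κ] [CommRing A] [Algebra (PP κ τ) A] (E : FIdem κ τ A)
    (lam : A →ₗ[PP κ τ] PP κ τ) (a : A) (T : PP κ τ) : Prop :=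
  ∀ n i, MvPolynomial.X (Sum.inr i) ^ E.c n * T - lam (a * E.b n i) ∈ xx κ τ ^ n

end Pool.Agent.PL.CZ
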