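import Pool.Agent.PL.CZ.Defs

set_option autoImplicit false
set_option linter.unusedSectionVars false

/-! CZ-2. Generators with degree bounds.

By the Nullstellensatz (`MvPolynomial.vanishingIdeal_zeroLocus_eq_radical`) some power of
each variable is in `J + (x_i)`; hence there is `N₀` such that all monomials of degree at least `N₀`
are in `J + (x_i)` (`σ` finite). Let `a_j` be the monomials of degree `< N₀` (finitely many; `Fin r`
by an enumeration). By strong induction on `e`: every homogeneous `f` of degree `e` is congruent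
modulo `J` to some `∑ p_j(x) a_j` with `p_j` of total degree at most `e`. For `e < N₀` take
constants. For `e ≥ N₀`, `f = h + ∑ x_i g_i`, `h ∈ J`; take homogeneous components of degree `e`
(`HomI J`): `f = h_e + ∑ x_i (g_i)_(e - w_i)` (`w_i ≤ e` or the term is zero), and apply the
induction hypothesis to the `(g_i)_(e - w_i)`, `w_i ≥ 1`. In general decompose `f` into its
homogeneous components. `finite_of_gen`: the classes of the `a_j` generate. -/

namespace Pool.Agent.PL.CZ

open MvPolynomial

theorem homComp_mul {κ σ : Type} [Field κ] (x c : MvPolynomial σ κ) (w e : ℕ)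
    (hx : x.IsHomogeneous w) (hw : 1 ≤ w) :
    ∃ c' : MvPolynomial σ κ, (∃ k, (k < e ∨ c' = 0) ∧ c'.IsHomogeneous k) ∧
      homogeneousComponent e (x * c) = x * c' := by
  classical
  have h1 : x * c = ∑ k ∈ Finset.range (c.totalDegree + 1), x * homogeneousComponent k c := by
    rw [← Finset.mul_sum, sum_homogeneousComponent]
  have h2 : ∀ k, homogeneousComponent e (x * homogeneousComponent k c) =
      if w + k = e then x * homogeneousComponent k c else 0 := by
    intro k
    have h3 : x * homogeneousComponent k c ∈ homogeneousSubmodule σ κ (w + k) := by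
      rw [mem_homogeneousSubmodule]
      exact hx.mul (homogeneousComponent_isHomogeneous k c)
    rw [homogeneousComponent_of_mem h3]
    by_cases h : w + k = e
    · rw [if_pos h, if_pos h.symm]
    · rw [if_neg h, if_neg (fun h' => h h'.symm)]
  by_cases hwe : w ≤ e ∧ e - w < c.totalDegree + 1
  · refine ⟨homogeneousComponent (e - w) c,
      ⟨e - w, Or.inl (by omega), homogeneousComponent_isHomogeneous _ _⟩, ?_⟩
    rw [h1, map_sum, Finset.sum_eq_single (e - w)]
    · rw [h2, if_pos (by omega)]
    · intro k _ hk
      rw [h2, if_neg (by omega)]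
    · intro hn
      exact absurd (Finset.mem_range.2 hwe.2) hn
  · refine ⟨0, ⟨0, Or.inr rfl, isHomogeneous_zero _ _ _⟩, ?_⟩
    rw [h1, map_sum, mul_zero]
    refine Finset.sum_eq_zero ?_
    intro k hk
    rw [Finset.mem_range] at hk
    rw [h2, if_neg]
    intro h
    apply hwe
    constructor
    · omega
    · omega

/-- Monomials of large degree are in an ideal with a unique zero. -/
theorem exists_large {κ σ : Type} [Field κ] [IsAlgClosed κ] [Finite σ]
    (I : Ideal (MvPolynomial σ κ))
    (hzero : ∀ z : σ → κ, (∀ Q ∈ I, MvPolynomial.aeval z Q = 0) → z = 0) :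
    ∃ N : ℕ, ∀ m : σ →₀ ℕ, N ≤ m.degree → (monomial m (1 : κ)) ∈ I := by
  classical
  have _i := Fintype.ofFinite σ
  have h1 : ∀ s : σ, ∃ n : ℕ, (X s : MvPolynomial σ κ) ^ n ∈ I := by
    intro s
    have h2 : (X s : MvPolynomial σ κ) ∈ I.radical := by
      rw [← vanishingIdeal_zeroLocus_eq_radical (K := κ) I, mem_vanishingIdeal_iff]
      intro z hz
      rw [hzero z hz, aeval_X]
      rfl
    exact h2
  choose n hn using h1
  refine ⟨∑ s, n s + 1, ?_⟩
  intro m hm
  obtain ⟨s, hs⟩ : ∃ s, n s ≤ m s := by
    by_contra hcon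
    push Not at hcon
    have h3 : m.degree ≤ ∑ s, n s := by
      rw [Finsupp.degree_eq_sum]
      exact Finset.sum_le_sum fun s _ => (hcon s).le
    omega
  have h4 : (monomial m (1 : κ)) = monomial (m - Finsupp.single s (n s)) 1 * X s ^ (n s) := by
    rw [X_pow_eq_monomial, monomial_mul, one_mul, tsub_add_cancel_of_le]
    rw [Finsupp.single_le_iff]
    exact hs
  rw [h4]
  exact I.mul_mem_left _ (hn s)

theorem exists_gen {κ σ τ : Type} [Field κ] [IsAlgClosed κ] [Finite σ] [Finite τ]
    (J : Ideal (MvPolynomial σ κ)) (hJ : HomI J) (x : Fin 2 ⊕ τ → MvPolynomial σ κ)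
    (w : Fin 2 ⊕ τ → ℕ) (hw : ∀ i, 1 ≤ w i) (hx : ∀ i, (x i).IsHomogeneous (w i))
    (hzero : ∀ z : σ → κ, (∀ Q ∈ J, MvPolynomial.aeval z Q = 0) →
      (∀ i, MvPolynomial.aeval z (x i) = 0) → z = 0) : Gen J x := by
  classical
  have _i := Fintype.ofFinite τ
  set I : Ideal (MvPolynomial σ κ) := J ⊔ Ideal.span (Set.range x) with hI
  obtain ⟨N, hN⟩ := exists_large I (by
    intro z hz
    refine hzero z (fun Q hQ => hz Q (Ideal.mem_sup_left hQ)) ?_
    intro i
    exact hz _ (Ideal.mem_sup_right (Ideal.subset_span ⟨i, rfl⟩)))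
  have hfin : {f : σ →₀ ℕ | f.degree < N}.Finite := Finsupp.finite_of_degree_lt N
  obtain ⟨r, ⟨eq⟩⟩ : ∃ r, Nonempty ({f : σ →₀ ℕ | f.degree < N} ≃ Fin r) := by
    have := hfin.to_subtype
    exact ⟨_, ⟨Finite.equivFin _⟩⟩
  set a : Fin r → MvPolynomial σ κ := fun j => monomial (eq.symm j : σ →₀ ℕ) (1 : κ) with ha
  -- homogeneous case
  have hom : ∀ e : ℕ, ∀ f : MvPolynomial σ κ, f.IsHomogeneous e →
      ∃ p : Fin r → PP κ τ, (∀ j, (p j).totalDegree ≤ e) ∧
        f - ∑ j, MvPolynomial.aeval x (p j) * a j ∈ J := by
    intro e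
    induction e using Nat.strong_induction_on with
    | _ e IH =>
    intro f hf
    by_cases heN : e < N
    · refine ⟨fun j => C (coeff (eq.symm j : σ →₀ ℕ) f), ?_, ?_⟩
      · intro j
        rw [totalDegree_C]
        exact Nat.zero_le _
      · have h1 : ∑ j, MvPolynomial.aeval x (C (coeff (eq.symm j : σ →₀ ℕ) f) : PP κ τ) * a j =
            f := by
          have h2 : ∀ j, MvPolynomial.aeval x (C (coeff (eq.symm j : σ →₀ ℕ) f) : PP κ τ) * a j =
              monomial (eq.symm j : σ →₀ ℕ) (coeff (eq.symm j : σ →₀ ℕ) f) := by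
            intro j
            rw [aeval_C, ha, algebraMap_eq, C_mul_monomial, mul_one]
          simp_rw [h2]
          ext m
          rw [coeff_sum]
          simp_rw [coeff_monomial]
          by_cases hm : m.degree < N
          · rw [Finset.sum_eq_single (eq ⟨m, hm⟩)]
            · rw [Equiv.symm_apply_apply, if_pos rfl]
            · intro j _ hj
              rw [if_neg]
              intro h
              apply hj
              have : eq.symm j = ⟨m, hm⟩ := Subtype.ext h
              rw [← this, Equiv.apply_symm_apply]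
            · intro h
              exact absurd (Finset.mem_univ _) h
          · rw [hf.coeff_eq_zero (by omega)]
            refine Finset.sum_eq_zero fun j _ => ?_
            rw [if_neg]
            intro h
            apply hm
            rw [← h]
            exact (eq.symm j).2
        rw [h1, sub_self]
        exact zero_mem _
    · have hfI : f ∈ I := by
        rw [f.as_sum]
        refine Ideal.sum_mem _ fun m hm => ?_
        have hdm : m.degree = e := by
          by_contra hne
          exact (mem_support_iff.1 hm) (hf.coeff_eq_zero hne)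
        have h3 : monomial m (coeff m f) = C (coeff m f) * monomial m (1 : κ) := by
          rw [C_mul_monomial, mul_one]
        rw [h3]
        exact I.mul_mem_left _ (hN m (by omega))
      obtain ⟨h, hh, g, hg, hfg⟩ := Submodule.mem_sup.1 hfI
      obtain ⟨c, hc⟩ := (Ideal.mem_span_range_iff_exists_fun).1 hg
      choose c' hc' hc2 using fun i => homComp_mul (x i) (c i) (w i) e (hx i) (hw i)
      have hp : ∀ i, ∃ p : Fin r → PP κ τ, (∀ j, (p j).totalDegree + 1 ≤ e ∨ p j = 0) ∧
          c' i - ∑ j, MvPolynomial.aeval x (p j) * a j ∈ J := by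
        intro i
        obtain ⟨k, hk, hck⟩ := hc' i
        rcases hk with hk | hk
        · obtain ⟨p, hp1, hp2⟩ := IH k hk (c' i) hck
          exact ⟨p, fun j => Or.inl (by have := hp1 j; omega), hp2⟩
        · refine ⟨0, fun j => Or.inr rfl, ?_⟩
          rw [hk]
          simp
      choose p hp1 hp2 using hp
      refine ⟨fun j => ∑ i, X i * p i j, ?_, ?_⟩
      · intro j
        refine totalDegree_finsetSum_le fun i _ => ?_
        rcases hp1 i j with h1 | h1
        · refine (totalDegree_mul _ _).trans ?_
          rw [totalDegree_X]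
          omega
        · rw [h1, mul_zero, totalDegree_zero]
          exact Nat.zero_le _
      · have hfe : f = homogeneousComponent e h + ∑ i, x i * c' i := by
          have h4 : homogeneousComponent e f = f := homogeneousComponent_eq_self hf
          rw [← h4, ← hfg, map_add, ← hc, map_sum]
          congr 1
          refine Finset.sum_congr rfl fun i _ => ?_
          rw [mul_comm, hc2]
        have h5 : f - ∑ j, MvPolynomial.aeval x (∑ i, X i * p i j) * a j =
            homogeneousComponent e h +
              ∑ i, x i * (c' i - ∑ j, MvPolynomial.aeval x (p i j) * a j) := by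
          have h6 : ∑ j, MvPolynomial.aeval x (∑ i, X i * p i j) * a j =
              ∑ i, x i * ∑ j, MvPolynomial.aeval x (p i j) * a j := by
            simp_rw [map_sum, map_mul, aeval_X, Finset.sum_mul, Finset.mul_sum]
            rw [Finset.sum_comm]
            refine Finset.sum_congr rfl fun i _ => Finset.sum_congr rfl fun j _ => ?_
            ring
          rw [h6]
          conv_lhs => rw [hfe]
          simp_rw [mul_sub]
          rw [Finset.sum_sub_distrib]
          ring
        rw [h5]
        exact Ideal.add_mem _ (hJ h hh e) (Ideal.sum_mem _ fun i _ => J.mul_mem_left _ (hp2 i))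
  refine ⟨r, a, ?_⟩
  intro d f hf
  choose p hp1 hp2 using fun e => hom e (homogeneousComponent e f)
    (homogeneousComponent_isHomogeneous e f)
  refine ⟨fun j => ∑ e ∈ Finset.range (d + 1), p e j, ?_, ?_⟩
  · intro j
    refine totalDegree_finsetSum_le ?_
    intro e he
    exact (hp1 e j).trans (Nat.lt_succ_iff.1 (Finset.mem_range.1 he))
  · have h1 : f = ∑ e ∈ Finset.range (d + 1), homogeneousComponent e f := by
      conv_lhs => rw [← sum_homogeneousComponent f]
      refine Finset.sum_subset (Finset.range_mono (by omega)) ?_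
      intro e _ he
      apply homogeneousComponent_eq_zero
      rw [Finset.mem_range] at he
      omega
    have h2 : f - ∑ j, MvPolynomial.aeval x (∑ e ∈ Finset.range (d + 1), p e j) * a j =
        ∑ e ∈ Finset.range (d + 1), (homogeneousComponent e f -
          ∑ j, MvPolynomial.aeval x (p e j) * a j) := by
      rw [Finset.sum_sub_distrib, ← h1, Finset.sum_comm]
      congr 1
      refine Finset.sum_congr rfl fun j _ => ?_
      rw [map_sum, Finset.sum_mul]
    rw [h2]
    exact Ideal.sum_mem _ fun e _ => hp2 e

theorem finite_of_gen {κ σ τ A : Type} [Field κ] [CommRing A] [Algebra (PP κ τ) A]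
    (J : Ideal (MvPolynomial σ κ)) (x : Fin 2 ⊕ τ → MvPolynomial σ κ) (hg : Gen J x)
    (π : MvPolynomial σ κ →+* A) (hπs : Function.Surjective π)
    (hπ : ∀ p, algebraMap (PP κ τ) A p = π (MvPolynomial.aeval x p))
    (hJ : ∀ f, f ∈ J ↔ π f = 0) : Module.Finite (PP κ τ) A := by
  classical
  obtain ⟨r, a, h⟩ := hg
  refine ⟨⟨Finset.univ.image fun j => π (a j), ?_⟩⟩
  rw [eq_top_iff]
  intro b _
  obtain ⟨f, rfl⟩ := hπs b
  obtain ⟨p, -, hp⟩ := h _ f le_rfl
  have h1 := (hJ _).1 hp
  rw [map_sub, sub_eq_zero] at h1
  rw [h1, map_sum]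
  refine Submodule.sum_mem _ fun j _ => ?_
  rw [map_mul, ← hπ, ← Algebra.smul_def]
  refine Submodule.smul_mem _ _ (Submodule.subset_span ?_)
  simp

end Pool.Agent.PL.CZ
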