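import Pool.Agent.PL.CZ.Defs

set_option autoImplicit false
set_option linter.unusedSectionVars false

/-! CZ-4. Construction of the formal idempotent.

For `n` let `𝔞' = 𝔞 ^ (N n)`, `𝔟' = 𝔟 ^ (N n)`, homogeneous ideals (the product of homogeneous
ideals is homogeneous: `HomI` is `Ideal.IsHomogeneous` for `MvPolynomial.homogeneousSubmodule`;
`Ideal.IsHomogeneous.mul`), `𝔞' 𝔟' = (𝔞 𝔟) ^ (N n) ≤ (J + (x_0, x_1)) ^ n ≤ J + (x_0, x_1) ^ n`.
The radical of `𝔞' ⊔ 𝔟'` is the one of `𝔞 ⊔ 𝔟` (`Ideal.radical_sup`, or `(𝔞 ⊔ 𝔟) ^ (2 N n) ≤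
𝔞' ⊔ 𝔟'`, `Ideal.sup_pow_add_le_pow_sup_pow`), so there is `c n` with `x_i ^ c n ∈ 𝔞' ⊔ 𝔟'` for all
`i ∈ τ` (`τ` finite): `x_i ^ c n = a + b`, `a ∈ 𝔞'`, `b ∈ 𝔟'`; replace `a`, `b` by their homogeneous
components of degree `c n` (`x_i ^ c n` is homogeneous of degree `c n`). `b n i` is the class of `b`.
(`c 0` may be anything, e.g. the ideals are `⊤`, and everything is in `xx ^ 0 = ⊤`.)
`idem`: `b (b - x_i ^ c) = - a b`. `glue`, `M = c n`: `y = x_j ^ c b_i - x_i ^ c b_j` is in `𝔟'`, and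
equal to `x_i ^ c a_j - x_j ^ c a_i ∈ 𝔞'`; so `x_i ^ c y = a_i y + b_i y ∈ 𝔞' 𝔟'`. `comp`: similarly,
`y = x_i ^ c_n b_(n+1) - x_i ^ c_(n+1) b_n` is in `𝔞' ⊓ 𝔟'` (powers `N n`), `M = c n`.
`bdd`: `a = π a₀`, `a₀` of total degree `e`; `a₀ b` has total degree at most `e + c n`, so by `Gen`
`a * b n i = ∑ p_j π(a_j)` with `p_j` of degree at most `e + c n`, and
`lam (..) = ∑ p_j lam (π a_j)`. -/

namespace Pool.Agent.PL.CZ

attribute [local instance] MvPolynomial.gradedAlgebra in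
theorem homI_iff_idem {κ σ : Type} [Field κ] (I : Ideal (MvPolynomial σ κ)) :
    HomI I ↔ I.IsHomogeneous (MvPolynomial.homogeneousSubmodule σ κ) := by
  constructor
  · intro h i r hr
    have h1 := h r hr i
    have h2 : (DirectSum.decompose (MvPolynomial.homogeneousSubmodule σ κ) r i :
        MvPolynomial σ κ) = MvPolynomial.homogeneousComponent i r :=
      MvPolynomial.decomposition.decompose'_apply r i
    rw [h2]
    exact h1
  · intro h f hf d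
    exact MvPolynomial.homogeneousComponent_mem_of_mem h hf d

attribute [local instance] MvPolynomial.gradedAlgebra in
theorem homI_pow {κ σ : Type} [Field κ] {I : Ideal (MvPolynomial σ κ)} (hI : HomI I) (n : ℕ) :
    HomI (I ^ n) := by
  rw [homI_iff_idem] at hI ⊢
  induction n with
  | zero =>
    rw [pow_zero, Ideal.one_eq_top]
    intro i r _
    exact Submodule.mem_top
  | succ n ih =>
    rw [pow_succ]
    exact Ideal.IsHomogeneous.mul ih hI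

/-- The decomposition of powers of the variables. -/
theorem exists_decomp {κ σ τ : Type} [Field κ] [Finite τ]
    (x : Fin 2 ⊕ τ → MvPolynomial σ κ)
    (hx : ∀ i : τ, (x (Sum.inr i)).IsHomogeneous 1)
    (𝔞 𝔟 : Ideal (MvPolynomial σ κ)) (h𝔞 : HomI 𝔞) (h𝔟 : HomI 𝔟)
    (hsum : ∀ i : τ, x (Sum.inr i) ∈ (𝔞 ⊔ 𝔟).radical) (k : ℕ) :
    ∃ (c : ℕ) (a b : τ → MvPolynomial σ κ), ∀ i, a i ∈ 𝔞 ^ k ∧ b i ∈ 𝔟 ^ k ∧
      a i + b i = x (Sum.inr i) ^ c ∧ (b i).totalDegree ≤ c := by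
  classical
  have _ : Fintype τ := Fintype.ofFinite τ
  have h1 : ∀ i : τ, ∃ m : ℕ, x (Sum.inr i) ^ m ∈ 𝔞 ^ k ⊔ 𝔟 ^ k := by
    intro i
    obtain ⟨m, hm⟩ := hsum i
    refine ⟨m * (k + k), ?_⟩
    rw [pow_mul]
    exact Ideal.sup_pow_add_le_pow_sup_pow (Ideal.pow_mem_pow hm (k + k))
  choose m hm using h1
  have h2 : ∀ i : τ, x (Sum.inr i) ^ (∑ j, m j) ∈ 𝔞 ^ k ⊔ 𝔟 ^ k := by
    intro i
    refine Ideal.pow_mem_of_pow_mem _ (hm i) ?_
    exact Finset.single_le_sum (f := m) (fun j _ => Nat.zero_le _) (Finset.mem_univ i)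
  have h3 : ∀ i : τ, ∃ a b : MvPolynomial σ κ, a ∈ 𝔞 ^ k ∧ b ∈ 𝔟 ^ k ∧
      a + b = x (Sum.inr i) ^ (∑ j, m j) ∧ b.totalDegree ≤ ∑ j, m j := by
    intro i
    obtain ⟨a, ha, b, hb, hab⟩ := Submodule.mem_sup.mp (h2 i)
    refine ⟨MvPolynomial.homogeneousComponent (∑ j, m j) a,
      MvPolynomial.homogeneousComponent (∑ j, m j) b, homI_pow h𝔞 k a ha _, homI_pow h𝔟 k b hb _,
      ?_, ?_⟩
    · rw [← map_add, hab]
      have h4 : (x (Sum.inr i) ^ (∑ j, m j)).IsHomogeneous (∑ j, m j) := by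
        have h5 := (hx i).pow (∑ j, m j)
        rwa [one_mul] at h5
      rw [MvPolynomial.homogeneousComponent_of_mem h4, if_pos rfl]
    · exact (MvPolynomial.homogeneousComponent_isHomogeneous _ _).totalDegree_le
  choose a b ha hb hab hd using h3
  exact ⟨∑ j, m j, a, b, fun i => ⟨ha i, hb i, hab i, hd i⟩⟩

theorem exists_fidem {κ σ τ A : Type} [Field κ] [Finite τ] [CommRing A] [Algebra (PP κ τ) A]
    (J : Ideal (MvPolynomial σ κ)) (x : Fin 2 ⊕ τ → MvPolynomial σ κ)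
    (hx : ∀ i : τ, (x (Sum.inr i)).IsHomogeneous 1) (hg : Gen J x)
    (π : MvPolynomial σ κ →+* A) (hπs : Function.Surjective π)
    (hπ : ∀ p, algebraMap (PP κ τ) A p = π (MvPolynomial.aeval x p))
    (hJ : ∀ f, f ∈ J ↔ π f = 0) (𝔞 𝔟 : Ideal (MvPolynomial σ κ)) (h𝔞 : HomI 𝔞) (h𝔟 : HomI 𝔟)
    (N : ℕ) (hN1 : 1 ≤ N)
    (hN : (𝔞 * 𝔟) ^ N ≤ J ⊔ Ideal.span {x (Sum.inl 0), x (Sum.inl 1)})
    (hsum : ∀ i : τ, x (Sum.inr i) ∈ (𝔞 ⊔ 𝔟).radical) :
    ∃ E : FIdem κ τ A, ∀ n, 1 ≤ n → ∀ i, (∃ b ∈ 𝔟, π b = E.b n i) ∧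
      ∃ a ∈ 𝔞, π a = xr κ A i ^ E.c n - E.b n i := by
  classical
  have hxr : ∀ i : τ, xr κ A i = π (x (Sum.inr i)) := by
    intro i
    rw [xr, hπ, MvPolynomial.aeval_X]
  -- the image of the ideals
  have hJ0 : J.map π = ⊥ := by
    rw [eq_bot_iff, Ideal.map_le_iff_le_comap]
    intro f hf
    rw [Ideal.mem_comap, Ideal.mem_bot]
    exact (hJ f).mp hf
  have hI : (Ideal.span {x (Sum.inl 0), x (Sum.inl 1)}).map π =
      (xx κ τ).map (algebraMap (PP κ τ) A) := by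
    rw [xx, Ideal.map_span, Ideal.map_span]
    congr 1
    ext y
    constructor
    · rintro ⟨z, hz, rfl⟩
      rcases hz with rfl | rfl
      · exact ⟨_, ⟨0, rfl⟩, by rw [hπ, MvPolynomial.aeval_X]⟩
      · exact ⟨_, ⟨1, rfl⟩, by rw [hπ, MvPolynomial.aeval_X]⟩
    · rintro ⟨z, ⟨i, rfl⟩, rfl⟩
      refine ⟨x (Sum.inl i), ?_, by rw [hπ, MvPolynomial.aeval_X]⟩
      fin_cases i
      · exact Or.inl rfl
      · exact Or.inr rfl
  have hmem : ∀ (n : ℕ) (f g : MvPolynomial σ κ), f ∈ 𝔞 ^ (N * n) → g ∈ 𝔟 ^ (N * n) →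
      π (f * g) ∈ (xx κ τ ^ n).map (algebraMap (PP κ τ) A) := by
    intro n f g hf hg'
    have h1 : f * g ∈ ((𝔞 * 𝔟) ^ N) ^ n := by
      rw [← pow_mul, mul_pow]
      exact Ideal.mul_mem_mul hf hg'
    have h2 : f * g ∈ (J ⊔ Ideal.span {x (Sum.inl 0), x (Sum.inl 1)}) ^ n :=
      Ideal.pow_right_mono hN n h1
    have h3 := Ideal.mem_map_of_mem π h2
    rw [Ideal.map_pow, Ideal.map_sup, hJ0, bot_sup_eq, hI] at h3
    rw [Ideal.map_pow]
    exact h3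
  have hdec : ∀ n : ℕ, ∃ (c : ℕ) (a b : τ → MvPolynomial σ κ), ∀ i, a i ∈ 𝔞 ^ (N * n) ∧
      b i ∈ 𝔟 ^ (N * n) ∧ a i + b i = x (Sum.inr i) ^ c ∧ (b i).totalDegree ≤ c :=
    fun n => exists_decomp x hx 𝔞 𝔟 h𝔞 h𝔟 hsum (N * n)
  choose c a b hab using hdec
  have ha : ∀ n i, a n i ∈ 𝔞 ^ (N * n) := fun n i => (hab n i).1
  have hb : ∀ n i, b n i ∈ 𝔟 ^ (N * n) := fun n i => (hab n i).2.1
  have hs : ∀ n i, a n i + b n i = x (Sum.inr i) ^ c n := fun n i => (hab n i).2.2.1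
  have hd : ∀ n i, (b n i).totalDegree ≤ c n := fun n i => (hab n i).2.2.2
  have hle : ∀ (I : Ideal (MvPolynomial σ κ)) (n : ℕ), I ^ (N * (n + 1)) ≤ I ^ (N * n) := by
    intro I n
    apply Ideal.pow_le_pow_right
    exact Nat.mul_le_mul_left N (Nat.le_succ n)
  refine ⟨⟨fun n i => π (b n i), c, ?_, ?_, ?_, ?_⟩, ?_⟩
  · intro n i
    have h1 : π (b n i) * π (b n i) - xr κ A i ^ c n * π (b n i) = π (a n i * (- b n i)) := by
      rw [hxr, ← map_pow, ← hs n i, ← map_mul, ← map_mul, ← map_sub]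
      congr 1
      ring
    rw [h1]
    exact hmem n _ _ (ha n i) ((𝔟 ^ (N * n)).neg_mem (hb n i))
  · intro n i j
    refine ⟨c n, ?_⟩
    set y := x (Sum.inr j) ^ c n * b n i - x (Sum.inr i) ^ c n * b n j with hy
    have hyb : y ∈ 𝔟 ^ (N * n) :=
      (𝔟 ^ (N * n)).sub_mem (Ideal.mul_mem_left _ _ (hb n i)) (Ideal.mul_mem_left _ _ (hb n j))
    have hya : y ∈ 𝔞 ^ (N * n) := by
      have h1 : y = x (Sum.inr i) ^ c n * a n j - x (Sum.inr j) ^ c n * a n i := by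
        rw [hy, ← hs n i, ← hs n j]
        ring
      rw [h1]
      exact (𝔞 ^ (N * n)).sub_mem (Ideal.mul_mem_left _ _ (ha n j))
        (Ideal.mul_mem_left _ _ (ha n i))
    have h2 : xr κ A i ^ c n * (xr κ A j ^ c n * π (b n i) - xr κ A i ^ c n * π (b n j)) =
        π (a n i * y) + π (y * b n i) := by
      rw [hxr, hxr, ← map_pow, ← map_pow, ← map_mul, ← map_mul, ← map_sub, ← map_mul, ← map_add,
        ← hy]
      congr 1
      rw [← hs n i]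
      ring
    rw [h2]
    exact Ideal.add_mem _ (hmem n _ _ (ha n i) hyb) (hmem n _ _ hya (hb n i))
  · intro n i
    refine ⟨c n, ?_⟩
    set y := x (Sum.inr i) ^ c n * b (n + 1) i - x (Sum.inr i) ^ c (n + 1) * b n i with hy
    have hyb : y ∈ 𝔟 ^ (N * n) :=
      (𝔟 ^ (N * n)).sub_mem (Ideal.mul_mem_left _ _ (hle 𝔟 n (hb (n + 1) i)))
        (Ideal.mul_mem_left _ _ (hb n i))
    have hya : y ∈ 𝔞 ^ (N * n) := by
      have h1 : y = x (Sum.inr i) ^ c (n + 1) * a n i - x (Sum.inr i) ^ c n * a (n + 1) i := by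
        rw [hy, ← hs n i, ← hs (n + 1) i]
        ring
      rw [h1]
      exact (𝔞 ^ (N * n)).sub_mem (Ideal.mul_mem_left _ _ (ha n i))
        (Ideal.mul_mem_left _ _ (hle 𝔞 n (ha (n + 1) i)))
    have h2 : xr κ A i ^ c n * (xr κ A i ^ c n * π (b (n + 1) i) -
        xr κ A i ^ c (n + 1) * π (b n i)) = π (a n i * y) + π (y * b n i) := by
      rw [hxr, ← map_pow, ← map_pow, ← map_mul, ← map_mul, ← map_sub, ← map_mul, ← map_add,
        ← hy]
      congr 1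
      rw [← hs n i]
      ring
    rw [h2]
    exact Ideal.add_mem _ (hmem n _ _ (ha n i) hyb) (hmem n _ _ hya (hb n i))
  · intro lam a₁
    obtain ⟨a₀, rfl⟩ := hπs a₁
    obtain ⟨r, g, hg⟩ := hg
    refine ⟨a₀.totalDegree + ∑ j, (lam (π (g j))).totalDegree, ?_⟩
    intro n i
    have h1 : (a₀ * b n i).totalDegree ≤ a₀.totalDegree + c n :=
      (MvPolynomial.totalDegree_mul _ _).trans (Nat.add_le_add_left (hd n i) _)
    obtain ⟨p, hp, hpJ⟩ := hg _ _ h1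
    have h2 : π a₀ * π (b n i) = ∑ j, p j • π (g j) := by
      rw [hJ, map_sub, sub_eq_zero, map_mul, map_sum] at hpJ
      rw [hpJ]
      apply Finset.sum_congr rfl
      intro j _
      rw [map_mul, Algebra.smul_def, hπ]
    rw [h2, map_sum]
    apply MvPolynomial.totalDegree_finsetSum_le
    intro j _
    rw [map_smul, smul_eq_mul]
    refine (MvPolynomial.totalDegree_mul _ _).trans ?_
    have h3 : (lam (π (g j))).totalDegree ≤ ∑ j, (lam (π (g j))).totalDegree :=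
      Finset.single_le_sum (f := fun j => (lam (π (g j))).totalDegree)
        (fun j _ => Nat.zero_le _) (Finset.mem_univ j)
    have h4 := hp j
    omega
  · intro n hn i
    have hne : N * n ≠ 0 := by
      have : 1 ≤ N * n := Nat.one_le_iff_ne_zero.mpr (Nat.mul_ne_zero (by omega) (by omega))
      omega
    refine ⟨⟨b n i, Ideal.pow_le_self hne (hb n i), rfl⟩,
      ⟨a n i, Ideal.pow_le_self hne (ha n i), ?_⟩⟩
    change π (a n i) = xr κ A i ^ c n - π (b n i)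
    rw [hxr, ← map_pow, ← map_sub, ← hs n i]
    congr 1
    ring

end Pool.Agent.PL.CZ
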