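import Pool.Agent.PL.CZ.Defs
import Pool.Agent.PL.Alg

set_option autoImplicit false
set_option linter.unusedSectionVars false

/-! CZ-3b. The parameters are algebraically independent.

`A = κ[σ]/J` is a domain, integral over the image `B` of `κ[Fin 2 ⊕ Fin s]` (`Gen J x` shows that
`A` is a finite module over it), so `trdeg B = trdeg A = s + 2` and `B` is generated by the `s + 2`
classes of the `x_i`; so these are algebraically independent (a generating family of `s + 2`
elements of a domain of transcendence degree `s + 2` contains a transcendence basis, which must be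
everything). Or: if the kernel is not zero, it is a nonzero prime of `κ[Fin 2 ⊕ Fin s]` and
`trdeg_lt` (PL/Alg) gives `s + 3 ≤ trdeg κ[Fin 2 ⊕ Fin s]/(0) = s + 2`. -/

namespace Pool.Agent.PL.CZ

theorem inj_of_gen {κ σ : Type} [Field κ] [Finite σ] (J : Ideal (MvPolynomial σ κ))
    (hJp : J.IsPrime) (s : ℕ) (hs : Algebra.trdeg κ (MvPolynomial σ κ ⧸ J) = (s + 2 : ℕ))
    (x : Fin 2 ⊕ Fin s → MvPolynomial σ κ) (hg : Gen J x) (p : PP κ (Fin s))
    (hp : MvPolynomial.aeval x p ∈ J) : p = 0 := by
  classical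
  let y : Fin 2 ⊕ Fin s → MvPolynomial σ κ ⧸ J := fun i => Ideal.Quotient.mk J (x i)
  have hval : ∀ q : PP κ (Fin s),
      Ideal.Quotient.mk J (MvPolynomial.aeval x q) = MvPolynomial.aeval y q := by
    intro q
    have h : (Ideal.Quotient.mkₐ κ J).comp (MvPolynomial.aeval x) =
        (MvPolynomial.aeval y : PP κ (Fin s) →ₐ[κ] _) := by
      apply MvPolynomial.algHom_ext
      intro i
      simp [y]
    exact AlgHom.congr_fun h q
  have hmem : ∀ q : PP κ (Fin s), MvPolynomial.aeval y q ∈ Algebra.adjoin κ (Set.range y) := by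
    intro q
    rw [Algebra.adjoin_range_eq_range_aeval]
    exact ⟨q, rfl⟩
  obtain ⟨r, a, ha⟩ := hg
  have hfin : Module.Finite (Algebra.adjoin κ (Set.range y)) (MvPolynomial σ κ ⧸ J) := by
    refine ⟨⟨Finset.univ.image fun j : Fin r => Ideal.Quotient.mk J (a j), ?_⟩⟩
    rw [eq_top_iff]
    rintro f -
    obtain ⟨f0, rfl⟩ := Ideal.Quotient.mk_surjective f
    obtain ⟨q, -, hq⟩ := ha f0.totalDegree f0 le_rfl
    rw [← Ideal.Quotient.eq_zero_iff_mem, map_sub, sub_eq_zero, map_sum] at hq
    rw [hq]
    refine Submodule.sum_mem _ fun j _ => ?_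
    rw [map_mul, hval]
    have hs : MvPolynomial.aeval y (q j) * Ideal.Quotient.mk J (a j) =
        (⟨MvPolynomial.aeval y (q j), hmem _⟩ : Algebra.adjoin κ (Set.range y)) •
          Ideal.Quotient.mk J (a j) := rfl
    rw [hs]
    refine Submodule.smul_mem _ _ (Submodule.subset_span ?_)
    simp
  have hint : Algebra.IsIntegral (Algebra.adjoin κ (Set.range y)) (MvPolynomial σ κ ⧸ J) :=
    inferInstance
  have halg : Algebra.IsAlgebraic (Algebra.adjoin κ (Set.range y)) (MvPolynomial σ κ ⧸ J) :=
    inferInstance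
  have hb : IsTranscendenceBasis κ y := by
    refine Algebra.IsAlgebraic.isTranscendenceBasis_of_le_trdeg_of_finite κ y ?_
    rw [hs]
    simp [add_comm]
  have h0 : MvPolynomial.aeval y p = 0 := by
    rw [← hval, Ideal.Quotient.eq_zero_iff_mem]
    exact hp
  exact (algebraicIndependent_iff.1 hb.1) p h0

end Pool.Agent.PL.CZ
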