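import Pool.Agent.PL.CZ.Defs

set_option autoImplicit false
set_option linter.unusedSectionVars false

/-! CZ-1. The powers of the ideal `xx`.

`mem_xx_pow`: `xx ^ n` is a monomial ideal, generated by the monomials of degree `n` in
`X (inl 0)`, `X (inl 1)`. Compare `MvPolynomial.mem_ideal_span_monomial_image`, or prove directly
that the set of all `f` satisfying the right hand side is an ideal which contains the products of
`n` generators, and conversely each monomial of `f` is in `xx ^ n`.
`cancel`: the support of `X_i ^ c * f` is the translate of the support of `f`.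
`common`: let `T` be the sum of the terms `a X^(e - c i)` for the terms `a X^e` of `u` with
`e (inl 0) + e (inl 1) < n`; such an `e` satisfies `c ≤ e (inr i)`, as the coefficient of
`X_j ^ c' * u` at `e + c' j` is not zero and must be the one of `X_i ^ c * v`. (`divMonomial`,
`MvPolynomial.coeff_X_pow_mul'`.) -/

namespace Pool.Agent.PL.CZ

variable {κ τ : Type} [Field κ]

/-- polynomials all of whose monomials have degree at least `n` in the first two variables -/
def lowIdeal (κ τ : Type) [Field κ] (n : ℕ) : Ideal (PP κ τ) where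
  carrier := {f | ∀ e ∈ f.support, n ≤ e (Sum.inl 0) + e (Sum.inl 1)}
  add_mem' := by
    classical
    intro a b ha hb e he
    rcases Finset.mem_union.1 (MvPolynomial.support_add he) with h | h
    · exact ha e h
    · exact hb e h
  zero_mem' := by
    intro e he
    simp at he
  smul_mem' := by
    classical
    intro a b hb e he
    rw [smul_eq_mul] at he
    obtain ⟨e1, h1, e2, h2, rfl⟩ := Finset.mem_add.1 (MvPolynomial.support_mul _ _ he)
    have := hb e2 h2
    simp only [Finsupp.coe_add, Pi.add_apply]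
    omega

theorem mem_lowIdeal (n : ℕ) (f : PP κ τ) :
    f ∈ lowIdeal κ τ n ↔ ∀ e ∈ f.support, n ≤ e (Sum.inl 0) + e (Sum.inl 1) := Iff.rfl

theorem mul_mem_lowIdeal (a b : ℕ) (f g : PP κ τ) (hf : f ∈ lowIdeal κ τ a)
    (hg : g ∈ lowIdeal κ τ b) : f * g ∈ lowIdeal κ τ (a + b) := by
  classical
  rw [mem_lowIdeal]
  intro e he
  obtain ⟨e1, h1, e2, h2, rfl⟩ := Finset.mem_add.1 (MvPolynomial.support_mul _ _ he)
  have h3 := hf e1 h1
  have h4 := hg e2 h2
  simp only [Finsupp.coe_add, Pi.add_apply]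
  omega

theorem xx_le_lowIdeal : xx κ τ ≤ lowIdeal κ τ 1 := by
  classical
  refine Ideal.span_le.2 ?_
  rintro _ ⟨i, rfl⟩
  show (MvPolynomial.X (Sum.inl i) : PP κ τ) ∈ lowIdeal κ τ 1
  rw [mem_lowIdeal]
  intro e he
  rw [MvPolynomial.support_X, Finset.mem_singleton] at he
  subst he
  fin_cases i <;> simp [Finsupp.single_apply]

theorem xx_pow_le_lowIdeal (n : ℕ) : xx κ τ ^ n ≤ lowIdeal κ τ n := by
  induction n with
  | zero =>
    intro f _
    rw [mem_lowIdeal]
    intro e _
    omega
  | succ n ih =>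
    rw [pow_succ]
    refine Ideal.mul_le.2 ?_
    intro r hr s hs
    exact mul_mem_lowIdeal n 1 r s (ih hr) (xx_le_lowIdeal hs)

theorem monomial_mem_xx_pow (n : ℕ) (e : (Fin 2 ⊕ τ) →₀ ℕ) (a : κ)
    (h : n ≤ e (Sum.inl 0) + e (Sum.inl 1)) :
    (MvPolynomial.monomial e a : PP κ τ) ∈ xx κ τ ^ n := by
  classical
  have h0 : (MvPolynomial.X (Sum.inl 0) : PP κ τ) ∈ xx κ τ := Ideal.subset_span ⟨0, rfl⟩
  have h1 : (MvPolynomial.X (Sum.inl 1) : PP κ τ) ∈ xx κ τ := Ideal.subset_span ⟨1, rfl⟩
  have h2 : (MvPolynomial.X (Sum.inl 0) : PP κ τ) ^ e (Sum.inl 0) *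
      MvPolynomial.X (Sum.inl 1) ^ e (Sum.inl 1) ∈ xx κ τ ^ (e (Sum.inl 0) + e (Sum.inl 1)) := by
    rw [pow_add]
    exact Ideal.mul_mem_mul (Ideal.pow_mem_pow h0 _) (Ideal.pow_mem_pow h1 _)
  have h3 := Ideal.pow_le_pow_right h h2
  have hle : Finsupp.single (Sum.inl 0) (e (Sum.inl 0)) + Finsupp.single (Sum.inl 1) (e (Sum.inl 1))
      ≤ e := by
    intro x
    rcases x with x | x
    · fin_cases x <;> simp [Finsupp.single_apply]
    · simp [Finsupp.single_apply]
  have h4 : (MvPolynomial.monomial e a : PP κ τ) =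
      MvPolynomial.monomial (e - (Finsupp.single (Sum.inl 0) (e (Sum.inl 0)) +
        Finsupp.single (Sum.inl 1) (e (Sum.inl 1)))) a *
      (MvPolynomial.X (Sum.inl 0) ^ e (Sum.inl 0) * MvPolynomial.X (Sum.inl 1) ^ e (Sum.inl 1)) := by
    rw [MvPolynomial.X_pow_eq_monomial, MvPolynomial.X_pow_eq_monomial,
      MvPolynomial.monomial_mul, MvPolynomial.monomial_mul, tsub_add_cancel_of_le hle]
    simp
  rw [h4]
  exact Ideal.mul_mem_left _ _ h3

theorem mem_xx_pow (n : ℕ) (f : PP κ τ) :
    f ∈ xx κ τ ^ n ↔ ∀ e ∈ f.support, n ≤ e (Sum.inl 0) + e (Sum.inl 1) := by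
  constructor
  · intro h
    exact (mem_lowIdeal n f).1 (xx_pow_le_lowIdeal n h)
  · intro h
    rw [MvPolynomial.as_sum f]
    exact Ideal.sum_mem _ fun e he => monomial_mem_xx_pow n e _ (h e he)

theorem cancel (n c : ℕ) (i : τ) (f : PP κ τ)
    (h : MvPolynomial.X (Sum.inr i) ^ c * f ∈ xx κ τ ^ n) : f ∈ xx κ τ ^ n := by
  classical
  rw [mem_xx_pow] at h ⊢
  intro e he
  have h1 : Finsupp.single (Sum.inr i) c + e ∈
      (MvPolynomial.X (Sum.inr i) ^ c * f : PP κ τ).support := by
    rw [MvPolynomial.mem_support_iff, MvPolynomial.X_pow_eq_monomial,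
      MvPolynomial.coeff_monomial_mul, one_mul]
    exact MvPolynomial.mem_support_iff.1 he
  have h2 := h _ h1
  simpa [Finsupp.single_apply] using h2

theorem common (n c c' d : ℕ) (i j : τ) (hij : i ≠ j) (u v : PP κ τ)
    (hd : u.totalDegree ≤ c + d)
    (h : MvPolynomial.X (Sum.inr j) ^ c' * u - MvPolynomial.X (Sum.inr i) ^ c * v ∈ xx κ τ ^ n) :
    ∃ T : PP κ τ, T.totalDegree ≤ d ∧ u - MvPolynomial.X (Sum.inr i) ^ c * T ∈ xx κ τ ^ n := by
  classical
  set L : Finset ((Fin 2 ⊕ τ) →₀ ℕ) :=
    u.support.filter (fun e => e (Sum.inl 0) + e (Sum.inl 1) < n) with hL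
  have key : ∀ e ∈ L, Finsupp.single (Sum.inr i) c ≤ e := by
    intro e he
    rw [hL, Finset.mem_filter] at he
    have h1 : Finsupp.single (Sum.inr j) c' + e ∉
        (MvPolynomial.X (Sum.inr j) ^ c' * u - MvPolynomial.X (Sum.inr i) ^ c * v :
          PP κ τ).support := by
      intro hmem
      have h2 := (mem_xx_pow n _).1 h _ hmem
      simp only [Finsupp.coe_add, Pi.add_apply, Finsupp.single_apply, reduceCtorEq, if_false,
        zero_add] at h2
      omega
    rw [MvPolynomial.notMem_support_iff, MvPolynomial.coeff_sub, MvPolynomial.X_pow_eq_monomial,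
      MvPolynomial.coeff_monomial_mul, one_mul, MvPolynomial.X_pow_eq_monomial,
      MvPolynomial.coeff_monomial_mul'] at h1
    by_contra hcon
    have h5 : ¬ Finsupp.single (Sum.inr i) c ≤ Finsupp.single (Sum.inr j) c' + e := by
      intro h6
      apply hcon
      rw [Finsupp.single_le_iff] at h6 ⊢
      have hne : (Sum.inr j : Fin 2 ⊕ τ) ≠ Sum.inr i := fun h => hij (Sum.inr_injective h).symm
      simpa only [Finsupp.coe_add, Pi.add_apply, Finsupp.single_apply, if_neg hne,
        zero_add] using h6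
    rw [if_neg h5, sub_zero] at h1
    exact MvPolynomial.mem_support_iff.1 he.1 h1
  refine ⟨∑ e ∈ L, MvPolynomial.monomial (e - Finsupp.single (Sum.inr i) c) (u.coeff e), ?_, ?_⟩
  · refine (MvPolynomial.totalDegree_finset_sum _ _).trans (Finset.sup_le ?_)
    intro e he
    refine (MvPolynomial.totalDegree_monomial_le _ _).trans ?_
    show (e - Finsupp.single (Sum.inr i) c).sum (fun _ k => k) ≤ d
    have h1 := key e he
    have h2 : e ∈ u.support := (Finset.mem_filter.1 he).1
    have h3 := (MvPolynomial.le_totalDegree h2).trans hd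
    have h4 : (e - Finsupp.single (Sum.inr i) c + Finsupp.single (Sum.inr i) c) = e :=
      tsub_add_cancel_of_le h1
    have h5 : e.sum (fun _ k => k) =
        (e - Finsupp.single (Sum.inr i) c).sum (fun _ k => k) + c := by
      conv_lhs => rw [← h4]
      rw [Finsupp.sum_add_index' (fun _ => rfl) (fun _ _ _ => rfl),
        Finsupp.sum_single_index rfl]
    rw [h5] at h3
    omega
  · have h1 : (MvPolynomial.X (Sum.inr i) : PP κ τ) ^ c *
        ∑ e ∈ L, MvPolynomial.monomial (e - Finsupp.single (Sum.inr i) c) (u.coeff e) =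
        ∑ e ∈ L, MvPolynomial.monomial e (u.coeff e) := by
      rw [Finset.mul_sum]
      refine Finset.sum_congr rfl ?_
      intro e he
      rw [MvPolynomial.X_pow_eq_monomial, MvPolynomial.monomial_mul, one_mul,
        add_tsub_cancel_of_le (key e he)]
    have h2 : u - ∑ e ∈ L, MvPolynomial.monomial e (u.coeff e) =
        ∑ e ∈ u.support.filter (fun e => ¬ (e (Sum.inl 0) + e (Sum.inl 1) < n)),
          MvPolynomial.monomial e (u.coeff e) := by
      rw [sub_eq_iff_eq_add, hL, add_comm, Finset.sum_filter_add_sum_filter_not]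
      exact MvPolynomial.as_sum u
    rw [h1, h2]
    refine Ideal.sum_mem _ fun e he => monomial_mem_xx_pow n e _ ?_
    have := (Finset.mem_filter.1 he).2
    omega

theorem eq_zero_of_lt (n : ℕ) (f : PP κ τ) (h : f ∈ xx κ τ ^ n) (hd : f.totalDegree < n) :
    f = 0 := by
  classical
  rw [mem_xx_pow] at h
  by_contra hf
  obtain ⟨e, he⟩ := MvPolynomial.support_nonempty.2 hf
  have h1 := h e he
  have h2 := MvPolynomial.le_totalDegree he
  have h3 : e (Sum.inl 0) + e (Sum.inl 1) ≤ e.sum (fun _ k => k) := by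
    have h4 : Finsupp.single (Sum.inl 0) (e (Sum.inl 0)) +
        Finsupp.single (Sum.inl 1) (e (Sum.inl 1)) ≤ e := by
      intro x
      rcases x with x | x
      · fin_cases x <;> simp [Finsupp.single_apply]
      · simp [Finsupp.single_apply]
    have h5 : (e - (Finsupp.single (Sum.inl 0) (e (Sum.inl 0)) +
        Finsupp.single (Sum.inl 1) (e (Sum.inl 1)))) + (Finsupp.single (Sum.inl 0) (e (Sum.inl 0)) +
        Finsupp.single (Sum.inl 1) (e (Sum.inl 1))) = e := tsub_add_cancel_of_le h4
    conv_rhs => rw [← h5]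
    rw [Finsupp.sum_add_index' (fun _ => rfl) (fun _ _ _ => rfl),
      Finsupp.sum_add_index' (fun _ => rfl) (fun _ _ _ => rfl),
      Finsupp.sum_single_index rfl, Finsupp.sum_single_index rfl]
    omega
  omega

end Pool.Agent.PL.CZ
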