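import Pool.Agent.PL.CZ.Defs
import Pool.Agent.PL.Alg

set_option autoImplicit false
set_option linter.unusedSectionVars false

/-! CZ-3. Existence of linear forms which complete `F`, `G` to a system of parameters.

Claim: for `t ≤ s` there are linear forms `l_1, .., l_t` such that all primes `𝔮` containing
`J`, `F`, `G`, `l_1, .., l_t` have `trdeg κ[σ]/𝔮 ≤ s - t`. Induction: let `𝔮_1, .., 𝔮_r` be the
minimal primes of `J + (F, G, l_1, .., l_t)` with `trdeg ≥ 1`; such a prime does not contain all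
variables (else `κ[σ]/𝔮_i = κ`). As `κ` is infinite there is a linear form `l` in none of the `𝔮_i`
(a vector space over an infinite field is not a finite union of proper subspaces: compare
`exists_form` in Helper16 or `Helper40/AlgAvoid`). A prime `𝔮` containing `J, F, G, l_1, .., l_t, l`
contains a minimal prime `𝔮'` of `J + (F, G, l_1, .., l_t)`; if `trdeg κ[σ]/𝔮' ≥ 1` then `l ∉ 𝔮'`,
`𝔮' < 𝔮` and `trdeg_lt` applies; if it is `0` then so is the one of `𝔮` (`trdeg_lt` again) and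
`0 ≤ s - t - 1`.
For `t = s`, let `z ≠ 0` be a common zero of `J, F, G, l_i`. The kernel `𝔮` of
`κ[σ] → κ[T]`, `X_j ↦ z_j T`, is a prime which contains `J` (`HomI J`: a homogeneous `f` of degree
`d` is mapped to `f(z) T ^ d`), `F`, `G`, `l_i`, and `trdeg κ[σ]/𝔮 ≥ 1` (it is isomorphic to
`κ[T]`, or: it contains the class of `X_j`, `z_j ≠ 0`, mapped to `z_j T`, transcendental).
Contradiction. -/

namespace Pool.Agent.PL.CZ

private theorem par_all_var {κ σ : Type} [Field κ] (𝔮 : Ideal (MvPolynomial σ κ))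
    (h : ∀ j, MvPolynomial.X j ∈ 𝔮) (f : MvPolynomial σ κ) :
    ∃ c : κ, Ideal.Quotient.mk 𝔮 f = algebraMap κ (MvPolynomial σ κ ⧸ 𝔮) c := by
  induction f using MvPolynomial.induction_on with
  | C a => exact ⟨a, rfl⟩
  | add p q hp hq =>
    obtain ⟨a, ha⟩ := hp
    obtain ⟨b, hb⟩ := hq
    exact ⟨a + b, by rw [map_add, ha, hb, map_add]⟩
  | mul_X p j hp =>
    refine ⟨0, ?_⟩
    rw [map_mul, Ideal.Quotient.eq_zero_iff_mem.2 (h j), mul_zero, map_zero]

private theorem par_exists_var {κ σ : Type} [Field κ] (𝔮 : Ideal (MvPolynomial σ κ))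
    (hq : 𝔮.IsPrime) (h : ((1 : ℕ) : Cardinal) ≤ Algebra.trdeg κ (MvPolynomial σ κ ⧸ 𝔮)) :
    ∃ j, MvPolynomial.X j ∉ 𝔮 := by
  by_contra hcon
  push Not at hcon
  obtain ⟨x, hx⟩ := exists_indep 1 h
  obtain ⟨f, hf⟩ := Ideal.Quotient.mk_surjective (x 0)
  obtain ⟨c, hc⟩ := par_all_var 𝔮 hcon f
  have h1 : Transcendental κ (x 0) := (algebraicIndependent_singleton_iff (0 : Fin 1)).1 hx
  rw [← hf, hc] at h1
  exact h1 (isAlgebraic_algebraMap c)

private noncomputable def par_lin {κ σ : Type} [Field κ] [Fintype σ] :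
    (σ → κ) →ₗ[κ] MvPolynomial σ κ where
  toFun a := ∑ j, a j • MvPolynomial.X j
  map_add' a b := by
    simp only [Pi.add_apply, add_smul, Finset.sum_add_distrib]
  map_smul' c a := by
    simp only [Pi.smul_apply, smul_eq_mul, mul_smul, Finset.smul_sum, RingHom.id_apply]

private theorem par_lin_hom {κ σ : Type} [Field κ] [Fintype σ] (a : σ → κ) :
    (par_lin a : MvPolynomial σ κ).IsHomogeneous 1 := by
  change (∑ j, a j • MvPolynomial.X j : MvPolynomial σ κ).IsHomogeneous 1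
  apply MvPolynomial.IsHomogeneous.sum
  intro j _
  rw [MvPolynomial.smul_eq_C_mul]
  have := (MvPolynomial.isHomogeneous_C σ (a j)).mul (MvPolynomial.isHomogeneous_X κ j)
  simpa using this

private theorem par_avoid {κ σ : Type} [Field κ] [Infinite κ] [Fintype σ]
    (S : Set (Ideal (MvPolynomial σ κ))) (hS : S.Finite) (h : ∀ 𝔮 ∈ S, ∃ j, MvPolynomial.X j ∉ 𝔮) :
    ∃ a : σ → κ, ∀ 𝔮 ∈ S, par_lin a ∉ 𝔮 := by
  classical
  by_contra hcon
  push Not at hcon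
  have : Finite S := hS
  obtain ⟨𝔮, h𝔮⟩ := Subspace.exists_eq_top_of_iUnion_eq_univ
    (p := fun 𝔮 : S => ((𝔮 : Ideal (MvPolynomial σ κ)).restrictScalars κ).comap par_lin) (by
      rw [Set.eq_univ_iff_forall]
      intro a
      obtain ⟨𝔮, h𝔮, ha⟩ := hcon a
      rw [Set.mem_iUnion]
      exact ⟨⟨𝔮, h𝔮⟩, ha⟩)
  obtain ⟨j, hj⟩ := h 𝔮 𝔮.2
  apply hj
  have h1 : (Pi.single j 1 : σ → κ) ∈
      ((𝔮 : Ideal (MvPolynomial σ κ)).restrictScalars κ).comap par_lin := by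
    rw [h𝔮]
    trivial
  have h2 : (par_lin (Pi.single j (1 : κ)) : MvPolynomial σ κ) ∈ (𝔮 : Ideal (MvPolynomial σ κ)) := h1
  have h3 : (par_lin (Pi.single j (1 : κ)) : MvPolynomial σ κ) = MvPolynomial.X j := by
    change (∑ i, (Pi.single j (1 : κ) : σ → κ) i • MvPolynomial.X i : MvPolynomial σ κ) = _
    rw [Finset.sum_eq_single j]
    · simp
    · intro i _ hij
      rw [Pi.single_eq_of_ne hij, zero_smul]
    · intro hj
      exact absurd (Finset.mem_univ j) hj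
  rwa [h3] at h2

private theorem par_step {κ σ : Type} [Field κ] [Infinite κ] [Finite σ]
    (I : Ideal (MvPolynomial σ κ)) (e : ℕ)
    (hI : ∀ 𝔮 : Ideal (MvPolynomial σ κ), 𝔮.IsPrime → I ≤ 𝔮 →
      Algebra.trdeg κ (MvPolynomial σ κ ⧸ 𝔮) ≤ ((e + 1 : ℕ) : Cardinal)) :
    ∃ l : MvPolynomial σ κ, l.IsHomogeneous 1 ∧
      ∀ 𝔮 : Ideal (MvPolynomial σ κ), 𝔮.IsPrime → I ≤ 𝔮 → l ∈ 𝔮 →
      Algebra.trdeg κ (MvPolynomial σ κ ⧸ 𝔮) ≤ ((e : ℕ) : Cardinal) := by
  have := Fintype.ofFinite σ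
  obtain ⟨a, ha⟩ := par_avoid
    {𝔮 : Ideal (MvPolynomial σ κ) | 𝔮 ∈ I.minimalPrimes ∧
      ((1 : ℕ) : Cardinal) ≤ Algebra.trdeg κ (MvPolynomial σ κ ⧸ 𝔮)}
    ((I.finite_minimalPrimes_of_isNoetherianRing (MvPolynomial σ κ)).subset fun 𝔮 h => h.1)
    (fun 𝔮 h => par_exists_var 𝔮 h.1.isPrime h.2)
  refine ⟨par_lin a, par_lin_hom a, ?_⟩
  intro 𝔮 h𝔮 hI𝔮 hl
  obtain ⟨𝔮', h𝔮', hle⟩ := Ideal.exists_minimalPrimes_le hI𝔮
  obtain ⟨d, hd⟩ := trdeg_nat (κ := κ) 𝔮 h𝔮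
  obtain ⟨d', hd'⟩ := trdeg_nat (κ := κ) 𝔮' h𝔮'.isPrime
  rw [hd, Nat.cast_le]
  rcases Nat.eq_zero_or_pos d' with h0 | hpos
  · rcases hle.eq_or_lt with h1 | h1
    · rw [← h1, hd', Nat.cast_inj] at hd
      omega
    · have := trdeg_lt (κ := κ) 𝔮' 𝔮 h𝔮'.isPrime h𝔮 h1 d hd.ge
      rw [hd', Nat.cast_le] at this
      omega
  · have hmem : par_lin a ∉ 𝔮' := ha 𝔮' ⟨h𝔮', by rw [hd', Nat.cast_le]; exact hpos⟩
    have h1 : 𝔮' < 𝔮 := lt_of_le_of_ne hle fun h => hmem (h ▸ hl)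
    have h2 := trdeg_lt (κ := κ) 𝔮' 𝔮 h𝔮'.isPrime h𝔮 h1 d hd.ge
    have h3 := h2.trans (hI 𝔮' h𝔮'.isPrime h𝔮'.1.2)
    rw [Nat.cast_le] at h3
    omega

private theorem par_forms {κ σ : Type} [Field κ] [Infinite κ] [Finite σ]
    (J : Ideal (MvPolynomial σ κ)) (s : ℕ)
    (hJ : ∀ 𝔮 : Ideal (MvPolynomial σ κ), 𝔮.IsPrime → J ≤ 𝔮 →
      Algebra.trdeg κ (MvPolynomial σ κ ⧸ 𝔮) ≤ ((s : ℕ) : Cardinal)) :
    ∃ l : Fin s → MvPolynomial σ κ, (∀ i, (l i).IsHomogeneous 1) ∧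
      ∀ 𝔮 : Ideal (MvPolynomial σ κ), 𝔮.IsPrime → J ≤ 𝔮 → (∀ i, l i ∈ 𝔮) →
        Algebra.trdeg κ (MvPolynomial σ κ ⧸ 𝔮) ≤ ((0 : ℕ) : Cardinal) := by
  induction s generalizing J with
  | zero => exact ⟨fun i => i.elim0, fun i => i.elim0, fun 𝔮 h𝔮 hJ𝔮 _ => hJ 𝔮 h𝔮 hJ𝔮⟩
  | succ s ih =>
    obtain ⟨l0, hl0, h0⟩ := par_step J s hJ
    obtain ⟨l, hl, h1⟩ := ih (J ⊔ Ideal.span {l0}) (fun 𝔮 h𝔮 hle =>
      h0 𝔮 h𝔮 (le_sup_left.trans hle)
        (hle (Ideal.mem_sup_right (Ideal.mem_span_singleton_self l0))))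
    refine ⟨Fin.cons l0 l, ?_, ?_⟩
    · intro i
      refine Fin.cases ?_ ?_ i
      · simpa using hl0
      · intro i
        simpa using hl i
    · intro 𝔮 h𝔮 hJ𝔮 hl𝔮
      refine h1 𝔮 h𝔮 (sup_le hJ𝔮 ?_) ?_
      · rw [Ideal.span_singleton_le_iff_mem]
        simpa using hl𝔮 0
      · intro i
        simpa using hl𝔮 i.succ

private theorem par_eval_hom {κ σ : Type} [Field κ] [Finite σ] (z : σ → κ)
    (f : MvPolynomial σ κ) (d : ℕ) (hf : f.IsHomogeneous d) :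
    MvPolynomial.aeval (fun j => Polynomial.C (z j) * Polynomial.X : σ → Polynomial κ) f =
      Polynomial.C (MvPolynomial.aeval z f) * Polynomial.X ^ d := by
  have := Fintype.ofFinite σ
  rw [MvPolynomial.aeval_def, MvPolynomial.aeval_def, MvPolynomial.eval₂_eq',
    MvPolynomial.eval₂_eq', map_sum, Finset.sum_mul]
  apply Finset.sum_congr rfl
  intro u hu
  have hdeg : ∑ j, u j = d := by
    have h1 := hf (MvPolynomial.mem_support_iff.1 hu)
    rw [Finsupp.weight_apply, Finsupp.sum_fintype _ _ (fun i => by simp)] at h1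
    simpa using h1
  simp only [mul_pow, Finset.prod_mul_distrib, Finset.prod_pow_eq_pow_sum, hdeg, map_mul, map_prod,
    map_pow]
  rw [mul_assoc]
  rfl

theorem exists_params {κ σ : Type} [Field κ] [IsAlgClosed κ] [Finite σ]
    (J : Ideal (MvPolynomial σ κ)) (hJh : HomI J) (s : ℕ)
    (F G : MvPolynomial σ κ) (m m' : ℕ) (hm : 1 ≤ m) (hm' : 1 ≤ m') (hF : F.IsHomogeneous m)
    (hG : G.IsHomogeneous m')
    (hcodim : ∀ 𝔮 : Ideal (MvPolynomial σ κ), 𝔮.IsPrime → J ≤ 𝔮 → F ∈ 𝔮 → G ∈ 𝔮 →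
      Algebra.trdeg κ (MvPolynomial σ κ ⧸ 𝔮) ≤ s) :
    ∃ l : Fin s → MvPolynomial σ κ, (∀ i, (l i).IsHomogeneous 1) ∧
      ∀ z : σ → κ, (∀ Q ∈ J, MvPolynomial.aeval z Q = 0) → MvPolynomial.aeval z F = 0 →
        MvPolynomial.aeval z G = 0 → (∀ i, MvPolynomial.aeval z (l i) = 0) → z = 0 := by
  have hJ' : ∀ 𝔮 : Ideal (MvPolynomial σ κ), 𝔮.IsPrime → J ⊔ Ideal.span {F, G} ≤ 𝔮 →
      Algebra.trdeg κ (MvPolynomial σ κ ⧸ 𝔮) ≤ ((s : ℕ) : Cardinal) := by
    intro 𝔮 h𝔮 hle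
    refine hcodim 𝔮 h𝔮 (le_sup_left.trans hle) ?_ ?_
    · exact hle (Ideal.mem_sup_right (Ideal.subset_span (by simp)))
    · exact hle (Ideal.mem_sup_right (Ideal.subset_span (by simp)))
  obtain ⟨l, hl, h⟩ := par_forms (J ⊔ Ideal.span {F, G}) s hJ'
  refine ⟨l, hl, ?_⟩
  intro z hzJ hzF hzG hzl
  by_contra hz
  obtain ⟨j, hj⟩ := Function.ne_iff.1 hz
  rw [Pi.zero_apply] at hj
  set φ : MvPolynomial σ κ →ₐ[κ] Polynomial κ :=
    MvPolynomial.aeval (fun j => Polynomial.C (z j) * Polynomial.X : σ → Polynomial κ) with hφ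
  have hev : ∀ (f : MvPolynomial σ κ) (d : ℕ), f.IsHomogeneous d → MvPolynomial.aeval z f = 0 →
      φ f = 0 := by
    intro f d hf hf0
    rw [hφ, par_eval_hom z f d hf, hf0, map_zero, zero_mul]
  have hprime : (RingHom.ker φ).IsPrime := RingHom.ker_isPrime φ
  have hJker : J ⊔ Ideal.span {F, G} ≤ RingHom.ker φ := by
    refine sup_le ?_ ?_
    · intro f hf
      rw [RingHom.mem_ker, ← MvPolynomial.sum_homogeneousComponent f, map_sum]
      apply Finset.sum_eq_zero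
      intro d _
      exact hev _ d (MvPolynomial.homogeneousComponent_isHomogeneous d f) (hzJ _ (hJh f hf d))
    · rw [Ideal.span_le]
      intro f hf
      rcases hf with rfl | hf
      · exact hev _ m hF hzF
      · rw [Set.mem_singleton_iff] at hf
        rw [hf]
        exact hev _ m' hG hzG
  have h1 := h (RingHom.ker φ) hprime hJker (fun i => hev _ 1 (hl i) (hzl i))
  have htr : Transcendental κ (Ideal.Quotient.mk (RingHom.ker φ) (MvPolynomial.X j)) := by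
    have h2 : Transcendental κ (φ (MvPolynomial.X j)) := by
      rw [hφ, MvPolynomial.aeval_X]
      intro halg
      have h3 : IsAlgebraic κ (Polynomial.X : Polynomial κ) := by
        have h4 : (Polynomial.X : Polynomial κ) =
            algebraMap κ (Polynomial κ) (z j)⁻¹ * (Polynomial.C (z j) * Polynomial.X) := by
          rw [Polynomial.algebraMap_eq, ← mul_assoc, ← Polynomial.C_mul, inv_mul_cancel₀ hj,
            Polynomial.C_1, one_mul]
        rw [h4]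
        exact (isAlgebraic_algebraMap _).mul halg
      exact Polynomial.transcendental_X κ h3
    intro halg
    apply h2
    have h5 := halg.algHom (Ideal.kerLiftAlg φ)
    simpa using h5
  have h6 : AlgebraicIndependent κ
      (fun _ : Fin 1 => Ideal.Quotient.mk (RingHom.ker φ) (MvPolynomial.X j)) :=
    (algebraicIndependent_singleton_iff (0 : Fin 1)).2 htr
  have h7 := h6.cardinalMk_le_trdeg.trans h1
  rw [Cardinal.mk_fin, Nat.cast_le] at h7
  omega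

end Pool.Agent.PL.CZ
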