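import Pool.Agent.PL.CZ.AR
import Pool.Agent.PL.CZ.Idem
import Pool.Agent.PL.CZ.Gens
import Pool.Agent.PL.CZ.Par
import Pool.Agent.PL.CZ.Inj

set_option autoImplicit false
set_option linter.unusedSectionVars false

/-! CZ-7. The connectedness theorem if `F`, `G` are parameters.

`exists_params` gives `l`, `x = Sum.elim ![F, G] l`; `exists_gen` gives `Gen J x` (with
`w = Sum.elim ![m, m'] 1`); `A = κ[σ]/J` is a `P`-algebra by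
`((Ideal.Quotient.mk J).comp (aeval x)).toAlgebra`; `finite_of_gen`, `inj_of_gen`. By the
Nullstellensatz `𝔞 * 𝔟 ≤ (J ⊔ (F, G)).radical` (`hcover`), so `(𝔞 * 𝔟) ^ N ≤ J ⊔ (F, G)` for some
`N ≥ 1` (`Ideal.exists_pow_le_of_le_radical_of_fg`), and all variables, so all `l_i`, are in the
radical of `𝔞 ⊔ 𝔟` (`hdisj`). `exists_fidem`, `fidem_const`. In the first case
`x_i ^ c = (x_i ^ c - b) + b ∈ π(𝔞)`, as `xx` maps into `π(𝔞)` (`F, G ∈ 𝔞`); so `l_i ^ c ∈ 𝔞`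
(`J ≤ 𝔞`), `l_i` vanishes on the zeros of `𝔞`, which are zeros of `J`, `F`, `G`, so they are zero. In
the second case the same with `𝔟`. -/

namespace Pool.Agent.PL.CZ

theorem par_hom_zero {κ σ : Type} [Field κ] (f : MvPolynomial σ κ) (d : ℕ) (hd : 1 ≤ d)
    (hf : f.IsHomogeneous d) : MvPolynomial.aeval (0 : σ → κ) f = 0 := by
  rw [MvPolynomial.aeval_zero, MvPolynomial.constantCoeff_eq, hf.coeff_eq_zero, map_zero]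
  rw [map_zero]
  omega

theorem par_fin {κ σ : Type} [Field κ] [IsAlgClosed κ] [Finite σ]
    (J : Ideal (MvPolynomial σ κ)) {A : Type} [CommRing A] (s : ℕ)
    [Algebra (PP κ (Fin s)) A] (F G : MvPolynomial σ κ) (l : Fin s → MvPolynomial σ κ)
    (hl : ∀ z : σ → κ, (∀ Q ∈ J, MvPolynomial.aeval z Q = 0) → MvPolynomial.aeval z F = 0 →
      MvPolynomial.aeval z G = 0 → (∀ i, MvPolynomial.aeval z (l i) = 0) → z = 0)
    (π : MvPolynomial σ κ →+* A) (hπs : Function.Surjective π)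
    (hπ : ∀ p, algebraMap (PP κ (Fin s)) A p = π (MvPolynomial.aeval (Sum.elim ![F, G] l) p))
    (hJ : ∀ f, f ∈ J ↔ π f = 0) (𝔞 : Ideal (MvPolynomial σ κ)) (hJ𝔞 : J ≤ 𝔞) (hF𝔞 : F ∈ 𝔞)
    (hG𝔞 : G ∈ 𝔞) (b : Fin s → A) (c : ℕ)
    (hb : ∀ i, b i ∈ (xx κ (Fin s)).map (algebraMap (PP κ (Fin s)) A))
    (ha : ∀ i, ∃ a ∈ 𝔞, π a = xr κ A i ^ c - b i) :
    ∀ z : σ → κ, (∀ Q ∈ 𝔞, MvPolynomial.aeval z Q = 0) → z = 0 := by
  intro z hz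
  refine hl z (fun Q hQ => hz Q (hJ𝔞 hQ)) (hz F hF𝔞) (hz G hG𝔞) fun i => ?_
  have hle : (xx κ (Fin s)).map (algebraMap (PP κ (Fin s)) A) ≤ 𝔞.map π := by
    rw [xx, Ideal.map_span, Ideal.span_le]
    rintro _ ⟨_, ⟨j, rfl⟩, rfl⟩
    rw [hπ, MvPolynomial.aeval_X]
    apply Ideal.mem_map_of_mem
    fin_cases j
    · exact hF𝔞
    · exact hG𝔞
  obtain ⟨a, ha1, ha2⟩ := ha i
  obtain ⟨b', hb1, hb2⟩ := (Ideal.mem_map_iff_of_surjective π hπs).1 (hle (hb i))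
  have h1 : π (a + b') = π (l i ^ c) := by
    rw [map_add, ha2, hb2, sub_add_cancel, xr, hπ, MvPolynomial.aeval_X, map_pow]
    rfl
  have h2 : l i ^ c ∈ 𝔞 := by
    have h3 : l i ^ c - (a + b') ∈ J := by
      rw [hJ, map_sub, h1, sub_self]
    have h4 := 𝔞.add_mem (hJ𝔞 h3) (𝔞.add_mem ha1 hb1)
    rwa [sub_add_cancel] at h4
  have h3 := hz _ h2
  rw [map_pow] at h3
  exact eq_zero_of_pow_eq_zero h3

theorem par_rad {κ σ : Type} [Field κ] [IsAlgClosed κ] [Finite σ]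
    (J : Ideal (MvPolynomial σ κ)) (F G : MvPolynomial σ κ) (𝔞 𝔟 : Ideal (MvPolynomial σ κ))
    (hcover : ∀ z : σ → κ, (∀ Q ∈ J, MvPolynomial.aeval z Q = 0) → MvPolynomial.aeval z F = 0 →
      MvPolynomial.aeval z G = 0 → (∀ Q ∈ 𝔞, MvPolynomial.aeval z Q = 0) ∨
        ∀ Q ∈ 𝔟, MvPolynomial.aeval z Q = 0) :
    𝔞 * 𝔟 ≤ (J ⊔ Ideal.span {F, G}).radical := by
  have hF1 : F ∈ J ⊔ Ideal.span {F, G} :=
    Ideal.mem_sup_right (Ideal.subset_span (Set.mem_insert _ _))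
  have hG1 : G ∈ J ⊔ Ideal.span {F, G} :=
    Ideal.mem_sup_right (Ideal.subset_span (Set.mem_insert_of_mem _ (Set.mem_singleton _)))
  have hle : J ≤ J ⊔ Ideal.span {F, G} := le_sup_left
  have h1 : 𝔞 * 𝔟 ≤ 𝔞 := Ideal.mul_le_left
  have h2 : 𝔞 * 𝔟 ≤ 𝔟 := Ideal.mul_le_right
  rw [← MvPolynomial.vanishingIdeal_zeroLocus_eq_radical (K := κ)]
  intro Q hQ
  rw [MvPolynomial.mem_vanishingIdeal_iff]
  intro z hz
  rw [MvPolynomial.mem_zeroLocus_iff] at hz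
  rcases hcover z (fun P hP => hz P (hle hP)) (hz F hF1) (hz G hG1) with h | h
  · exact h Q (h1 hQ)
  · exact h Q (h2 hQ)

theorem par_aux {κ σ : Type} [Field κ] [IsAlgClosed κ] [Finite σ]
    (J : Ideal (MvPolynomial σ κ)) (hJp : J.IsPrime) (s : ℕ) (hs2 : 2 ≤ s)
    (hs : Algebra.trdeg κ (MvPolynomial σ κ ⧸ J) = (s + 2 : ℕ))
    {A : Type} [CommRing A] [IsDomain A] [Algebra (PP κ (Fin s)) A]
    (F G : MvPolynomial σ κ) (l : Fin s → MvPolynomial σ κ)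
    (hl1 : ∀ i, (l i).IsHomogeneous 1)
    (hl : ∀ z : σ → κ, (∀ Q ∈ J, MvPolynomial.aeval z Q = 0) → MvPolynomial.aeval z F = 0 →
      MvPolynomial.aeval z G = 0 → (∀ i, MvPolynomial.aeval z (l i) = 0) → z = 0)
    (hgen : Gen J (Sum.elim ![F, G] l))
    (π : MvPolynomial σ κ →+* A) (hπs : Function.Surjective π)
    (hπ : ∀ p, algebraMap (PP κ (Fin s)) A p = π (MvPolynomial.aeval (Sum.elim ![F, G] l) p))
    (hJ : ∀ f, f ∈ J ↔ π f = 0)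
    (𝔞 𝔟 : Ideal (MvPolynomial σ κ)) (h𝔞 : HomI 𝔞) (h𝔟 : HomI 𝔟) (hJ𝔞 : J ≤ 𝔞) (hJ𝔟 : J ≤ 𝔟)
    (hF𝔞 : F ∈ 𝔞) (hG𝔞 : G ∈ 𝔞) (hF𝔟 : F ∈ 𝔟) (hG𝔟 : G ∈ 𝔟)
    (hcover : ∀ z : σ → κ, (∀ Q ∈ J, MvPolynomial.aeval z Q = 0) → MvPolynomial.aeval z F = 0 →
      MvPolynomial.aeval z G = 0 → (∀ Q ∈ 𝔞, MvPolynomial.aeval z Q = 0) ∨
        ∀ Q ∈ 𝔟, MvPolynomial.aeval z Q = 0)
    (hdisj : ∀ z : σ → κ, (∀ Q ∈ 𝔞, MvPolynomial.aeval z Q = 0) →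
      (∀ Q ∈ 𝔟, MvPolynomial.aeval z Q = 0) → z = 0) :
    (∀ z : σ → κ, (∀ Q ∈ 𝔞, MvPolynomial.aeval z Q = 0) → z = 0) ∨
      ∀ z : σ → κ, (∀ Q ∈ 𝔟, MvPolynomial.aeval z Q = 0) → z = 0 := by
  classical
  have hfin : Module.Finite (PP κ (Fin s)) A := finite_of_gen J _ hgen π hπs hπ hJ
  have hinj : Function.Injective (algebraMap (PP κ (Fin s)) A) := by
    rw [injective_iff_map_eq_zero]
    intro p hp
    rw [hπ] at hp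
    exact inj_of_gen J hJp s hs _ hgen p ((hJ _).2 hp)
  have hrad : 𝔞 * 𝔟 ≤ (J ⊔ Ideal.span {F, G}).radical := par_rad J F G 𝔞 𝔟 hcover
  obtain ⟨N, hN⟩ := Ideal.exists_pow_le_of_le_radical_of_fg hrad
    (IsNoetherian.noetherian (𝔞 * 𝔟))
  have hsum : ∀ i : Fin s, (Sum.elim ![F, G] l : Fin 2 ⊕ Fin s → MvPolynomial σ κ) (Sum.inr i) ∈
      (𝔞 ⊔ 𝔟).radical := by
    intro i
    rw [← MvPolynomial.vanishingIdeal_zeroLocus_eq_radical (K := κ),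
      MvPolynomial.mem_vanishingIdeal_iff]
    intro z hz
    rw [hdisj z (fun Q hQ => hz Q (Ideal.mem_sup_left hQ))
      (fun Q hQ => hz Q (Ideal.mem_sup_right hQ))]
    exact par_hom_zero (l i) 1 le_rfl (hl1 i)
  obtain ⟨E, hE⟩ := exists_fidem J (Sum.elim ![F, G] l) hl1 hgen π hπs hπ hJ 𝔞 𝔟 h𝔞 h𝔟 (N + 1)
    (Nat.le_add_left 1 N) ((Ideal.pow_le_pow_right (Nat.le_succ N)).trans hN) hsum
  obtain ⟨n, hn, h⟩ := fidem_const ⟨(⟨0, by omega⟩ : Fin s), ⟨1, by omega⟩, by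
    intro h
    have := congrArg Fin.val h
    simp at this⟩ hinj E
  rcases h with h | h
  · left
    exact par_fin J s F G l hl π hπs hπ hJ 𝔞 hJ𝔞 hF𝔞 hG𝔞 (fun i => E.b n i) (E.c n) h
      fun i => (hE n hn i).2
  · right
    refine par_fin J s F G l hl π hπs hπ hJ 𝔟 hJ𝔟 hF𝔟 hG𝔟
      (fun i => xr κ A i ^ E.c n - E.b n i) (E.c n) h fun i => ?_
    obtain ⟨b, hb1, hb2⟩ := (hE n hn i).1
    exact ⟨b, hb1, by rw [hb2, sub_sub_cancel]⟩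

theorem par_case {κ σ : Type} [Field κ] [IsAlgClosed κ] [Finite σ]
    (J : Ideal (MvPolynomial σ κ)) (hJp : J.IsPrime) (hJh : HomI J) (s : ℕ) (hs2 : 2 ≤ s)
    (hs : Algebra.trdeg κ (MvPolynomial σ κ ⧸ J) = (s + 2 : ℕ))
    (F G : MvPolynomial σ κ) (m m' : ℕ) (hm : 1 ≤ m) (hm' : 1 ≤ m') (hF : F.IsHomogeneous m)
    (hG : G.IsHomogeneous m')
    (hcodim : ∀ 𝔮 : Ideal (MvPolynomial σ κ), 𝔮.IsPrime → J ≤ 𝔮 → F ∈ 𝔮 → G ∈ 𝔮 →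
      Algebra.trdeg κ (MvPolynomial σ κ ⧸ 𝔮) ≤ s)
    (𝔞 𝔟 : Ideal (MvPolynomial σ κ)) (h𝔞 : HomI 𝔞) (h𝔟 : HomI 𝔟) (hJ𝔞 : J ≤ 𝔞) (hJ𝔟 : J ≤ 𝔟)
    (hF𝔞 : F ∈ 𝔞) (hG𝔞 : G ∈ 𝔞) (hF𝔟 : F ∈ 𝔟) (hG𝔟 : G ∈ 𝔟)
    (hcover : ∀ z : σ → κ, (∀ Q ∈ J, MvPolynomial.aeval z Q = 0) → MvPolynomial.aeval z F = 0 →
      MvPolynomial.aeval z G = 0 → (∀ Q ∈ 𝔞, MvPolynomial.aeval z Q = 0) ∨
        ∀ Q ∈ 𝔟, MvPolynomial.aeval z Q = 0)
    (hdisj : ∀ z : σ → κ, (∀ Q ∈ 𝔞, MvPolynomial.aeval z Q = 0) →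
      (∀ Q ∈ 𝔟, MvPolynomial.aeval z Q = 0) → z = 0) :
    (∀ z : σ → κ, (∀ Q ∈ 𝔞, MvPolynomial.aeval z Q = 0) → z = 0) ∨
      ∀ z : σ → κ, (∀ Q ∈ 𝔟, MvPolynomial.aeval z Q = 0) → z = 0 := by
  classical
  obtain ⟨l, hl1, hl⟩ := exists_params J hJh s F G m m' hm hm' hF hG hcodim
  have hgen : Gen J (Sum.elim ![F, G] l : Fin 2 ⊕ Fin s → MvPolynomial σ κ) := by
    refine exists_gen J hJh _ (Sum.elim ![m, m'] fun _ => 1) ?_ ?_ ?_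
    · rintro (i | i)
      · fin_cases i
        · exact hm
        · exact hm'
      · exact le_rfl
    · rintro (i | i)
      · fin_cases i
        · exact hF
        · exact hG
      · exact hl1 i
    · intro z hz hz'
      exact hl z hz (hz' (Sum.inl 0)) (hz' (Sum.inl 1)) fun i => hz' (Sum.inr i)
  have hdom : IsDomain (MvPolynomial σ κ ⧸ J) := Ideal.Quotient.isDomain J
  let alg : Algebra (PP κ (Fin s)) (MvPolynomial σ κ ⧸ J) :=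
    ((Ideal.Quotient.mk J).comp (MvPolynomial.aeval (Sum.elim ![F, G] l) :
      PP κ (Fin s) →ₐ[κ] MvPolynomial σ κ).toRingHom).toAlgebra
  exact par_aux J hJp s hs2 hs F G l hl1 hl hgen (Ideal.Quotient.mk J)
    Ideal.Quotient.mk_surjective (fun p => rfl) (fun f => Ideal.Quotient.eq_zero_iff_mem.symm)
    𝔞 𝔟 h𝔞 h𝔟 hJ𝔞 hJ𝔟 hF𝔞 hG𝔞 hF𝔟 hG𝔟 hcover hdisj

end Pool.Agent.PL.CZ
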