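import Pool.Agent.PL.CZ.ParCase
import Pool.Agent.PL.CZ.Avoid

set_option autoImplicit false
set_option linter.unusedSectionVars false

/-! CZ-8. The connectedness theorem in general.

Nullstellensatz (N): if `𝔭` is a prime such that every zero of `𝔭` is a zero of `𝔞` or of `𝔟` then
`𝔞 ≤ 𝔭` or `𝔟 ≤ 𝔭` (`𝔞 * 𝔟 ≤ 𝔭.radical = 𝔭`).
If `F, G ∈ J`: by (N) for `J`, `𝔞 ≤ J` or `𝔟 ≤ J`, say the first; then zeros of `𝔟` are zeros of `J`,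
hence of `𝔞`, so they are zero by `hdisj`.
Otherwise we may assume `F ∉ J` (the statement is symmetric). Let `M` be the set of minimal primes
of `J ⊔ (F)`, finite, homogeneous (`homI_minimal`), `S = {𝔭 ∈ M | G ∈ 𝔭}`, `S' = M \ S`. For
`𝔭 ∈ M`, `trdeg κ[σ]/𝔭 ≤ s + 1` (`trdeg_lt`) and `≥ s + 1` (as `cut_min` in PL/Alg or Helper40: use
`exists_cut` with `𝔪 = 𝔭` and minimality), so some variable is not in `𝔭` (else the quotient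
is `κ`). `exists_avoid` gives `H` homogeneous of degree `e ≥ 1`; `G' = G ^ e + H ^ m'`, homogeneous
of degree `e m' ≥ 1`. `G' ∉ 𝔭` for all `𝔭 ∈ M` (for `𝔭 ∈ S`: `G ∈ 𝔭`, `H ∉ 𝔭`; for `𝔭 ∈ S'`:
`H ∈ 𝔭`, `G ∉ 𝔭`). `hcodim` for `F`, `G'`: a prime `𝔮 ≥ J` with `F, G' ∈ 𝔮` contains some
`𝔭 ∈ M`, `𝔭 < 𝔮`, so `trdeg κ[σ]/𝔮 ≤ s` (`trdeg_lt`). Let `𝔞' = 𝔞 ⊔ (G')`, `𝔟' = 𝔟 ⊔ (G')`.
`hcover`: a zero `z` of `J, F, G'` is a zero of some `𝔭 ∈ M`; if `𝔭 ∈ S`, `G(z) = 0`; if `𝔭 ∈ S'`,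
`H(z) = 0`, `G(z) ^ e = 0`. `par_case` for `F`, `G'`, `𝔞'`, `𝔟'` gives, say, that `0` is the only
zero of `𝔞'` (at most). Claim: the same holds for `𝔞`. Let `z ≠ 0` be a zero of `𝔞`, so of
`J, F, G`; it is a zero of some `𝔭 ∈ M`. If `𝔭 ∈ S'`, `H(z) = 0`, so `G'(z) = 0`, `z` is a zero of
`𝔞'`, a contradiction. If `𝔭 ∈ S`: all zeros of `𝔭` are zeros of `J, F, G`, so by (N) `𝔞 ≤ 𝔭` or
`𝔟 ≤ 𝔭`; in the second case `z` is a zero of `𝔟`, `z = 0`. So `𝔞 ≤ 𝔭`. Let `𝔪` be the ideal of the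
origin (the kernel of `aeval 0`); `𝔭 ≤ 𝔪` as `𝔭` is homogeneous and proper. `exists_cut` for
`𝔭 ≤ 𝔪`, `G' ∈ 𝔪`, `trdeg κ[σ]/𝔭 ≥ s + 1` gives `𝔮 ≥ 𝔭`, `G' ∈ 𝔮`, `trdeg κ[σ]/𝔮 ≥ s ≥ 2`; so some
`X_j ∉ 𝔮`, and there is a zero `z'` of `𝔮` with `z'_j ≠ 0` (Nullstellensatz; or
`Helper40.AlgAvoid.exists_point_ne`), which is a nonzero zero of `𝔞'`. Contradiction. -/

namespace Pool.Agent.PL.CZ

/-- Nullstellensatz for a prime. -/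
theorem red_point {κ σ : Type} [Field κ] [IsAlgClosed κ] [Finite σ]
    (𝔭 : Ideal (MvPolynomial σ κ)) (h𝔭 : 𝔭.IsPrime) (f : MvPolynomial σ κ) (hf : f ∉ 𝔭) :
    ∃ z : σ → κ, (∀ Q ∈ 𝔭, MvPolynomial.aeval z Q = 0) ∧ MvPolynomial.aeval z f ≠ 0 := by
  have hf0 : Ideal.Quotient.mk 𝔭 f ≠ 0 := by rwa [Ne, Ideal.Quotient.eq_zero_iff_mem]
  obtain ⟨u, hu⟩ := Helper40.AlgAvoid.exists_point_ne (κ := κ) _ hf0
  refine ⟨fun i => u (Ideal.Quotient.mk 𝔭 (MvPolynomial.X i)), ?_⟩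
  have h1 : ∀ Q : MvPolynomial σ κ,
      MvPolynomial.aeval (fun i => u (Ideal.Quotient.mk 𝔭 (MvPolynomial.X i))) Q =
        u (Ideal.Quotient.mk 𝔭 Q) := by
    intro Q
    have h2 : (MvPolynomial.aeval (fun i => u (Ideal.Quotient.mk 𝔭 (MvPolynomial.X i))) :
        MvPolynomial σ κ →ₐ[κ] κ) = u.comp (Ideal.Quotient.mkₐ κ 𝔭) := by
      apply MvPolynomial.algHom_ext
      intro i
      simp
    rw [h2]
    rfl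
  constructor
  · intro Q hQ
    rw [h1, Ideal.Quotient.eq_zero_iff_mem.2 hQ, map_zero]
  · rw [h1]
    exact hu

theorem red_null {κ σ : Type} [Field κ] [IsAlgClosed κ] [Finite σ]
    (𝔭 𝔞 𝔟 : Ideal (MvPolynomial σ κ)) (h𝔭 : 𝔭.IsPrime)
    (h : ∀ z : σ → κ, (∀ Q ∈ 𝔭, MvPolynomial.aeval z Q = 0) →
      (∀ Q ∈ 𝔞, MvPolynomial.aeval z Q = 0) ∨ ∀ Q ∈ 𝔟, MvPolynomial.aeval z Q = 0) :
    𝔞 ≤ 𝔭 ∨ 𝔟 ≤ 𝔭 := by
  by_contra hcon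
  push Not at hcon
  obtain ⟨h1, h2⟩ := hcon
  obtain ⟨f, hf, hfp⟩ := SetLike.not_le_iff_exists.1 h1
  obtain ⟨g, hg, hgp⟩ := SetLike.not_le_iff_exists.1 h2
  have h3 : f * g ∉ 𝔭 := by
    intro h4
    rcases h𝔭.mem_or_mem h4 with h5 | h5
    · exact hfp h5
    · exact hgp h5
  obtain ⟨z, hz, hzf⟩ := red_point 𝔭 h𝔭 _ h3
  rw [map_mul] at hzf
  rcases h z hz with h4 | h4
  · rw [h4 f hf, zero_mul] at hzf
    exact hzf rfl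
  · rw [h4 g hg, mul_zero] at hzf
    exact hzf rfl

theorem red_X {κ σ : Type} [Field κ] [Finite σ] (𝔭 : Ideal (MvPolynomial σ κ))
    (h𝔭 : 𝔭.IsPrime) (d : ℕ) (hd1 : 1 ≤ d)
    (hd : ((d : ℕ) : Cardinal) ≤ Algebra.trdeg κ (MvPolynomial σ κ ⧸ 𝔭)) :
    ∃ j : σ, MvPolynomial.X j ∉ 𝔭 := by
  by_contra hcon
  push Not at hcon
  have h1 : ∀ a : MvPolynomial σ κ, a - MvPolynomial.C (MvPolynomial.constantCoeff a) ∈ 𝔭 := by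
    intro a
    induction a using MvPolynomial.induction_on with
    | C c => simp
    | add p q hp hq =>
      have h2 : p + q - MvPolynomial.C (MvPolynomial.constantCoeff (p + q)) =
          (p - MvPolynomial.C (MvPolynomial.constantCoeff p)) +
          (q - MvPolynomial.C (MvPolynomial.constantCoeff q)) := by
        rw [map_add, map_add]; ring
      rw [h2]
      exact 𝔭.add_mem hp hq
    | mul_X p i hp =>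
      have h2 : MvPolynomial.constantCoeff (p * MvPolynomial.X i) = 0 := by
        simp
      rw [h2, map_zero, sub_zero]
      exact 𝔭.mul_mem_left _ (hcon i)
  have h2 := trdeg_le_of_gen (κ := κ) 𝔭 h𝔭 0 (fun i => i.elim0) (fun a =>
    ⟨MvPolynomial.C (MvPolynomial.constantCoeff a), by
      rw [MvPolynomial.aeval_C]
      exact h1 a⟩)
  have h3 := hd.trans h2
  have h4 : d ≤ 0 := by exact_mod_cast h3
  omega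

theorem red_origin {κ σ : Type} [Field κ] (𝔭 : Ideal (MvPolynomial σ κ)) (h𝔭 : 𝔭.IsPrime)
    (hh : HomI 𝔭) (f : MvPolynomial σ κ) (hf : f ∈ 𝔭) :
    MvPolynomial.aeval (fun _ : σ => (0 : κ)) f = 0 := by
  have h1 := hh f hf 0
  rw [MvPolynomial.homogeneousComponent_zero] at h1
  have h2 : MvPolynomial.coeff 0 f = 0 := by
    by_contra h3
    apply h𝔭.ne_top
    rw [Ideal.eq_top_iff_one]
    have h4 : (1 : MvPolynomial σ κ) = MvPolynomial.C (MvPolynomial.coeff 0 f)⁻¹ *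
        MvPolynomial.C (MvPolynomial.coeff 0 f) := by
      rw [← map_mul, inv_mul_cancel₀ h3, map_one]
    rw [h4]
    exact 𝔭.mul_mem_left _ h1
  have h3 : MvPolynomial.aeval (fun _ : σ => (0 : κ)) f = MvPolynomial.constantCoeff f := by
    simp
  rw [h3]
  exact h2

theorem red_homog {κ σ : Type} [Field κ] (f : MvPolynomial σ κ) (d : ℕ) (hd : 1 ≤ d)
    (hf : f.IsHomogeneous d) : MvPolynomial.aeval (fun _ : σ => (0 : κ)) f = 0 := by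
  have h3 : MvPolynomial.aeval (fun _ : σ => (0 : κ)) f = MvPolynomial.constantCoeff f := by
    simp
  rw [h3]
  exact hf.coeff_eq_zero (by simp; omega)

theorem gen_core {κ σ : Type} [Field κ] [IsAlgClosed κ] [Finite σ]
    (J : Ideal (MvPolynomial σ κ)) (hJp : J.IsPrime) (hJh : HomI J) (s : ℕ) (hs2 : 2 ≤ s)
    (hs : Algebra.trdeg κ (MvPolynomial σ κ ⧸ J) = (s + 2 : ℕ))
    (F G : MvPolynomial σ κ) (m m' : ℕ) (hm : 1 ≤ m) (hm' : 1 ≤ m') (hF : F.IsHomogeneous m)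
    (hG : G.IsHomogeneous m') (hFJ : F ∉ J)
    (𝔞 𝔟 : Ideal (MvPolynomial σ κ)) (h𝔞 : HomI 𝔞) (h𝔟 : HomI 𝔟) (hJ𝔞 : J ≤ 𝔞) (hJ𝔟 : J ≤ 𝔟)
    (hF𝔞 : F ∈ 𝔞) (hG𝔞 : G ∈ 𝔞) (hF𝔟 : F ∈ 𝔟) (hG𝔟 : G ∈ 𝔟)
    (hcover : ∀ z : σ → κ, (∀ Q ∈ J, MvPolynomial.aeval z Q = 0) → MvPolynomial.aeval z F = 0 →
      MvPolynomial.aeval z G = 0 → (∀ Q ∈ 𝔞, MvPolynomial.aeval z Q = 0) ∨
        ∀ Q ∈ 𝔟, MvPolynomial.aeval z Q = 0)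
    (hdisj : ∀ z : σ → κ, (∀ Q ∈ 𝔞, MvPolynomial.aeval z Q = 0) →
      (∀ Q ∈ 𝔟, MvPolynomial.aeval z Q = 0) → z = 0) :
    (∀ z : σ → κ, (∀ Q ∈ 𝔞, MvPolynomial.aeval z Q = 0) → z = 0) ∨
      ∀ z : σ → κ, (∀ Q ∈ 𝔟, MvPolynomial.aeval z Q = 0) → z = 0 := by
  classical
  have hMfin : (J ⊔ Ideal.span {F}).minimalPrimes.Finite :=
    Ideal.finite_minimalPrimes_of_isNoetherianRing _ _
  have hJF : HomI (J ⊔ Ideal.span {F}) := homI_sup J hJh F m hF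
  have hFM : ∀ 𝔭 ∈ (J ⊔ Ideal.span {F}).minimalPrimes, F ∈ 𝔭 := fun 𝔭 h =>
    h.1.2 (Ideal.mem_sup_right (Ideal.mem_span_singleton_self F))
  have hJM : ∀ 𝔭 ∈ (J ⊔ Ideal.span {F}).minimalPrimes, J ≤ 𝔭 := fun 𝔭 h =>
    le_sup_left.trans h.1.2
  have hlow : ∀ 𝔭 ∈ (J ⊔ Ideal.span {F}).minimalPrimes,
      ((s + 1 : ℕ) : Cardinal) ≤ Algebra.trdeg κ (MvPolynomial σ κ ⧸ 𝔭) := fun 𝔭 h =>
    cut_sup J 𝔭 hJp F hFJ h (s + 1) hs.ge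
  have hup : ∀ 𝔭 ∈ (J ⊔ Ideal.span {F}).minimalPrimes, ∀ d : ℕ,
      ((d : ℕ) : Cardinal) ≤ Algebra.trdeg κ (MvPolynomial σ κ ⧸ 𝔭) → d ≤ s + 1 := by
    intro 𝔭 h d hd
    have hlt : J < 𝔭 := by
      refine lt_of_le_of_ne (hJM 𝔭 h) ?_
      rintro rfl
      exact hFJ (hFM _ h)
    have h1 := trdeg_lt (κ := κ) J 𝔭 hJp h.isPrime hlt d hd
    rw [hs] at h1
    have h2 : d + 1 ≤ s + 2 := by exact_mod_cast h1
    omega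
  have hXM : ∀ 𝔭 ∈ (J ⊔ Ideal.span {F}).minimalPrimes, ∃ j : σ, MvPolynomial.X j ∉ 𝔭 :=
    fun 𝔭 h => red_X 𝔭 h.isPrime (s + 1) (by omega) (hlow 𝔭 h)
  have hHM : ∀ 𝔭 ∈ (J ⊔ Ideal.span {F}).minimalPrimes, HomI 𝔭 := fun 𝔭 h =>
    homI_minimal _ 𝔭 hJF h
  have hincM : ∀ 𝔭 ∈ (J ⊔ Ideal.span {F}).minimalPrimes,
      ∀ 𝔮 ∈ (J ⊔ Ideal.span {F}).minimalPrimes, 𝔮 ≤ 𝔭 → 𝔮 = 𝔭 := fun 𝔭 h 𝔮 h' hle =>
    le_antisymm hle (h.2 h'.1 hle)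
  obtain ⟨e, H, he, hH, hHS, hHS'⟩ := exists_avoid (hMfin.toFinset.filter fun 𝔭 => G ∈ 𝔭)
    (hMfin.toFinset.filter fun 𝔭 => G ∉ 𝔭)
    (by
      intro 𝔭 h
      rw [Finset.mem_filter, Set.Finite.mem_toFinset] at h
      exact h.1.isPrime)
    (by
      intro 𝔭 h
      rw [Finset.mem_filter, Set.Finite.mem_toFinset] at h
      exact hHM 𝔭 h.1)
    (by
      intro 𝔭 h
      rw [Finset.mem_filter, Set.Finite.mem_toFinset] at h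
      exact hHM 𝔭 h.1)
    (by
      intro 𝔭 h 𝔮 h' hne hle
      rw [Finset.mem_filter, Set.Finite.mem_toFinset] at h h'
      exact hne (hincM 𝔭 h.1 𝔮 h'.1 hle))
    (by
      intro 𝔭 h 𝔮 h' hle
      rw [Finset.mem_filter, Set.Finite.mem_toFinset] at h h'
      have h1 := hincM 𝔭 h.1 𝔮 h'.1 hle
      rw [h1] at h'
      exact h'.2 h.2)
    (by
      intro 𝔭 h
      rw [Finset.mem_filter, Set.Finite.mem_toFinset] at h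
      exact hXM 𝔭 h.1)
  have hHin : ∀ 𝔭 ∈ (J ⊔ Ideal.span {F}).minimalPrimes, G ∈ 𝔭 → H ∉ 𝔭 := fun 𝔭 h hg =>
    hHS 𝔭 (by rw [Finset.mem_filter, Set.Finite.mem_toFinset]; exact ⟨h, hg⟩)
  have hHout : ∀ 𝔭 ∈ (J ⊔ Ideal.span {F}).minimalPrimes, G ∉ 𝔭 → H ∈ 𝔭 := fun 𝔭 h hg =>
    hHS' 𝔭 (by rw [Finset.mem_filter, Set.Finite.mem_toFinset]; exact ⟨h, hg⟩)
  set G' : MvPolynomial σ κ := G ^ e + H ^ m' with hG'
  have hG'h : G'.IsHomogeneous (m' * e) := by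
    refine (hG.pow e).add ?_
    have := hH.pow m'
    rwa [mul_comm] at this
  have hG'M : ∀ 𝔭 ∈ (J ⊔ Ideal.span {F}).minimalPrimes, G' ∉ 𝔭 := by
    intro 𝔭 h hmem
    by_cases hg : G ∈ 𝔭
    · have h1 : H ^ m' ∈ 𝔭 := by
        have h2 : H ^ m' = G' - G ^ e := by rw [hG']; ring
        rw [h2]
        exact 𝔭.sub_mem hmem (𝔭.pow_mem_of_mem hg e (by omega))
      exact hHin 𝔭 h hg (h.isPrime.mem_of_pow_mem m' h1)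
    · have h1 : G ^ e ∈ 𝔭 := by
        have h2 : G ^ e = G' - H ^ m' := by rw [hG']; ring
        rw [h2]
        exact 𝔭.sub_mem hmem (𝔭.pow_mem_of_mem (hHout 𝔭 h hg) m' (by omega))
      exact hg (h.isPrime.mem_of_pow_mem e h1)
  -- zeros of `J`, `F`
  have hzM : ∀ z : σ → κ, (∀ Q ∈ J, MvPolynomial.aeval z Q = 0) → MvPolynomial.aeval z F = 0 →
      ∃ 𝔭 ∈ (J ⊔ Ideal.span {F}).minimalPrimes, ∀ Q ∈ 𝔭, MvPolynomial.aeval z Q = 0 := by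
    intro z hz hzF
    have hker : (RingHom.ker (MvPolynomial.aeval z : MvPolynomial σ κ →ₐ[κ] κ)).IsPrime :=
      RingHom.ker_isPrime _
    have hle : J ⊔ Ideal.span {F} ≤
        RingHom.ker (MvPolynomial.aeval z : MvPolynomial σ κ →ₐ[κ] κ) := by
      refine sup_le (fun Q hQ => hz Q hQ) ?_
      rw [Ideal.span_singleton_le_iff_mem]
      exact hzF
    obtain ⟨𝔭, h𝔭, hle'⟩ := Ideal.exists_minimalPrimes_le hle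
    exact ⟨𝔭, h𝔭, fun Q hQ => hle' hQ⟩
  have hG'z : ∀ z : σ → κ, (∀ Q ∈ J, MvPolynomial.aeval z Q = 0) →
      MvPolynomial.aeval z F = 0 → MvPolynomial.aeval z G' = 0 → MvPolynomial.aeval z G = 0 := by
    intro z hz hzF hzG'
    obtain ⟨𝔭, h𝔭, hz𝔭⟩ := hzM z hz hzF
    by_cases hg : G ∈ 𝔭
    · exact hz𝔭 G hg
    · have h1 := hz𝔭 H (hHout 𝔭 h𝔭 hg)
      rw [hG', map_add, map_pow, map_pow, h1, zero_pow (by omega), add_zero] at hzG'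
      exact pow_eq_zero_iff (by omega) |>.1 hzG'
  have hzero' : ∀ (𝔠 : Ideal (MvPolynomial σ κ)) (z : σ → κ),
      (∀ Q ∈ 𝔠, MvPolynomial.aeval z Q = 0) → MvPolynomial.aeval z G' = 0 →
      ∀ Q ∈ 𝔠 ⊔ Ideal.span {G'}, MvPolynomial.aeval z Q = 0 := by
    intro 𝔠 z hz hzG' Q hQ
    have hle : 𝔠 ⊔ Ideal.span {G'} ≤
        RingHom.ker (MvPolynomial.aeval z : MvPolynomial σ κ →ₐ[κ] κ) := by
      refine sup_le (fun Q hQ => hz Q hQ) ?_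
      rw [Ideal.span_singleton_le_iff_mem]
      exact hzG'
    exact hle hQ
  have hpar := par_case J hJp hJh s hs2 hs F G' m (m' * e) hm (by
      calc 1 = 1 * 1 := rfl
        _ ≤ m' * e := Nat.mul_le_mul hm' he) hF hG'h
    (by
      intro 𝔮 h𝔮 hJ𝔮 hF𝔮 hG𝔮
      have hle : J ⊔ Ideal.span {F} ≤ 𝔮 := by
        refine sup_le hJ𝔮 ?_
        rwa [Ideal.span_singleton_le_iff_mem]
      obtain ⟨𝔭, h𝔭, h𝔭𝔮⟩ := Ideal.exists_minimalPrimes_le hle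
      have hlt : 𝔭 < 𝔮 := by
        refine lt_of_le_of_ne h𝔭𝔮 ?_
        rintro rfl
        exact hG'M _ h𝔭 hG𝔮
      obtain ⟨d, hd⟩ := trdeg_nat (κ := κ) 𝔮 h𝔮
      have h1 := trdeg_lt (κ := κ) 𝔭 𝔮 h𝔭.isPrime h𝔮 hlt d hd.ge
      have h2 := hup 𝔭 h𝔭 _ h1
      rw [hd]
      have h3 : d ≤ s := by omega
      exact_mod_cast h3)
    (𝔞 ⊔ Ideal.span {G'}) (𝔟 ⊔ Ideal.span {G'}) (homI_sup 𝔞 h𝔞 G' _ hG'h)
    (homI_sup 𝔟 h𝔟 G' _ hG'h) (hJ𝔞.trans le_sup_left) (hJ𝔟.trans le_sup_left)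
    (Ideal.mem_sup_left hF𝔞) (Ideal.mem_sup_right (Ideal.mem_span_singleton_self _))
    (Ideal.mem_sup_left hF𝔟) (Ideal.mem_sup_right (Ideal.mem_span_singleton_self _))
    (by
      intro z hz hzF hzG'
      rcases hcover z hz hzF (hG'z z hz hzF hzG') with h | h
      · exact Or.inl (hzero' 𝔞 z h hzG')
      · exact Or.inr (hzero' 𝔟 z h hzG'))
    (by
      intro z h1 h2
      exact hdisj z (fun Q hQ => h1 Q (Ideal.mem_sup_left hQ))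
        (fun Q hQ => h2 Q (Ideal.mem_sup_left hQ)))
  have hmain : ∀ 𝔠 𝔡 : Ideal (MvPolynomial σ κ), J ≤ 𝔠 → F ∈ 𝔠 → G ∈ 𝔠 →
      (∀ z : σ → κ, (∀ Q ∈ J, MvPolynomial.aeval z Q = 0) → MvPolynomial.aeval z F = 0 →
        MvPolynomial.aeval z G = 0 → (∀ Q ∈ 𝔠, MvPolynomial.aeval z Q = 0) ∨
          ∀ Q ∈ 𝔡, MvPolynomial.aeval z Q = 0) →
      (∀ z : σ → κ, (∀ Q ∈ 𝔠, MvPolynomial.aeval z Q = 0) →
        (∀ Q ∈ 𝔡, MvPolynomial.aeval z Q = 0) → z = 0) →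
      (∀ z : σ → κ, (∀ Q ∈ 𝔠 ⊔ Ideal.span {G'}, MvPolynomial.aeval z Q = 0) → z = 0) →
      ∀ z : σ → κ, (∀ Q ∈ 𝔠, MvPolynomial.aeval z Q = 0) → z = 0 := by
    intro 𝔠 𝔡 hJ𝔠 hF𝔠 hG𝔠 hcov hdis htriv z hz
    obtain ⟨𝔭, h𝔭, hz𝔭⟩ := hzM z (fun Q hQ => hz Q (hJ𝔠 hQ)) (hz F hF𝔠)
    by_cases hg : G ∈ 𝔭
    · rcases red_null 𝔭 𝔠 𝔡 h𝔭.isPrime (fun y hy => hcov y (fun Q hQ => hy Q (hJM 𝔭 h𝔭 hQ))
        (hy F (hFM 𝔭 h𝔭)) (hy G hg)) with h1 | h1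
      · exfalso
        have hker : (RingHom.ker (MvPolynomial.aeval (fun _ : σ => (0 : κ)) :
            MvPolynomial σ κ →ₐ[κ] κ)).IsPrime := RingHom.ker_isPrime _
        obtain ⟨𝔮, h𝔮, hlt, -, hG𝔮, htr⟩ := exists_cut (κ := κ) 𝔭 _ h𝔭.isPrime hker
          (fun Q hQ => red_origin 𝔭 h𝔭.isPrime (hHM 𝔭 h𝔭) Q hQ) G' (hG'M 𝔭 h𝔭)
          (red_homog G' (m' * e) (by
            calc 1 = 1 * 1 := rfl
              _ ≤ m' * e := Nat.mul_le_mul hm' he) hG'h) s (hlow 𝔭 h𝔭)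
        obtain ⟨j, hj⟩ := red_X 𝔮 h𝔮 s (by omega) htr
        obtain ⟨y, hy, hyj⟩ := red_point 𝔮 h𝔮 _ hj
        have h2 := htriv y (hzero' 𝔠 y (fun Q hQ => hy Q (hlt.le (h1 hQ))) (hy G' hG𝔮))
        rw [MvPolynomial.aeval_X, h2] at hyj
        exact hyj rfl
      · exact hdis z hz (fun Q hQ => hz𝔭 Q (h1 hQ))
    · apply htriv z
      apply hzero' 𝔠 z hz
      rw [hG', map_add, map_pow, map_pow, hz G hG𝔠, hz𝔭 H (hHout 𝔭 h𝔭 hg),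
        zero_pow (by omega), zero_pow (by omega), add_zero]
  rcases hpar with h | h
  · exact Or.inl (hmain 𝔞 𝔟 hJ𝔞 hF𝔞 hG𝔞 hcover hdisj h)
  · exact Or.inr (hmain 𝔟 𝔞 hJ𝔟 hF𝔟 hG𝔟 (fun z h1 h2 h3 => (hcover z h1 h2 h3).symm)
      (fun z h1 h2 => hdisj z h2 h1) h)

theorem gen_case {κ σ : Type} [Field κ] [IsAlgClosed κ] [Finite σ]
    (J : Ideal (MvPolynomial σ κ)) (hJp : J.IsPrime) (hJh : HomI J) (s : ℕ) (hs2 : 2 ≤ s)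
    (hs : Algebra.trdeg κ (MvPolynomial σ κ ⧸ J) = (s + 2 : ℕ))
    (F G : MvPolynomial σ κ) (m m' : ℕ) (hm : 1 ≤ m) (hm' : 1 ≤ m') (hF : F.IsHomogeneous m)
    (hG : G.IsHomogeneous m')
    (𝔞 𝔟 : Ideal (MvPolynomial σ κ)) (h𝔞 : HomI 𝔞) (h𝔟 : HomI 𝔟) (hJ𝔞 : J ≤ 𝔞) (hJ𝔟 : J ≤ 𝔟)
    (hF𝔞 : F ∈ 𝔞) (hG𝔞 : G ∈ 𝔞) (hF𝔟 : F ∈ 𝔟) (hG𝔟 : G ∈ 𝔟)
    (hcover : ∀ z : σ → κ, (∀ Q ∈ J, MvPolynomial.aeval z Q = 0) → MvPolynomial.aeval z F = 0 →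
      MvPolynomial.aeval z G = 0 → (∀ Q ∈ 𝔞, MvPolynomial.aeval z Q = 0) ∨
        ∀ Q ∈ 𝔟, MvPolynomial.aeval z Q = 0)
    (hdisj : ∀ z : σ → κ, (∀ Q ∈ 𝔞, MvPolynomial.aeval z Q = 0) →
      (∀ Q ∈ 𝔟, MvPolynomial.aeval z Q = 0) → z = 0) :
    (∀ z : σ → κ, (∀ Q ∈ 𝔞, MvPolynomial.aeval z Q = 0) → z = 0) ∨
      ∀ z : σ → κ, (∀ Q ∈ 𝔟, MvPolynomial.aeval z Q = 0) → z = 0 := by
  by_cases h1 : F ∈ J
  · by_cases h2 : G ∈ J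
    · rcases red_null J 𝔞 𝔟 hJp (fun z hz => hcover z hz (hz F h1) (hz G h2)) with h | h
      · exact Or.inr fun z hz => hdisj z (fun Q hQ => hz Q (hJ𝔟 (h hQ))) hz
      · exact Or.inl fun z hz => hdisj z hz (fun Q hQ => hz Q (hJ𝔞 (h hQ)))
    · exact gen_core J hJp hJh s hs2 hs G F m' m hm' hm hG hF h2 𝔞 𝔟 h𝔞 h𝔟 hJ𝔞 hJ𝔟 hG𝔞 hF𝔞
        hG𝔟 hF𝔟 (fun z ha hb hc => hcover z ha hc hb) hdisj
  · exact gen_core J hJp hJh s hs2 hs F G m m' hm hm' hF hG h1 𝔞 𝔟 h𝔞 h𝔟 hJ𝔞 hJ𝔟 hF𝔞 hG𝔞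
        hF𝔟 hG𝔟 hcover hdisj

end Pool.Agent.PL.CZ
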