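import Pool.Agent.PL.CZ.Mono

set_option autoImplicit false
set_option linter.unusedSectionVars false

/-! CZ-5. The action of the idempotent on linear forms.

For `y ∈ (xx ^ n).map (algebraMap P A)` and `λ : A → P` linear, `λ(a y) ∈ xx ^ n`.
`exists_rp`: let `i₀ ≠ j₀`, `C` as in `E.bdd lam a`. For each `n`, by `glue` and `cancel`,
`X_j₀ ^ c λ(a b_i₀) - X_i₀ ^ c λ(a b_j₀) ∈ xx ^ n` (`c = E.c n`); by `common` there is `T_n` of total
degree at most `C` with `λ(a b_i₀) - X_i₀ ^ c T_n ∈ xx ^ n`. For all `j`,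
`X_i₀ ^ c (X_j ^ c T_n - λ(a b_j)) ∈ xx ^ n` by `glue n i₀ j` and `cancel`, so
`X_j ^ c T_n - λ(a b_j) ∈ xx ^ n` (`cancel`). By `comp n i` and `cancel`, `T_(n+1) - T_n ∈ xx ^ n`,
so `T_(n+1) = T_n` for `n > C` by `eq_zero_of_lt`. `T = T_(C+1)`; `T - T_n ∈ xx ^ n` for all `n`.
`rp_unique`: `X_i ^ c (T - T') ∈ xx ^ n`, so `T - T' ∈ xx ^ n` for all `n`, `eq_zero_of_lt`.
`exists_eps`: additivity and linearity by `rp_unique` (`Rp` is additive in `a`, `T` and compatible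
with multiplication by elements of `P`).
`eps_eps`: let `T' = mu (a * b n i)`. By `h`, `X_i ^ c T' - λ(a b b) ∈ xx ^ n`, `λ(a b b) -
X_i ^ c λ(a b) ∈ xx ^ n` by `idem`, `X_i ^ c mu(a) - λ(a b) ∈ xx ^ n` by `h`; so
`X_i ^ c (T' - X_i ^ c mu(a)) ∈ xx ^ n`; `cancel`. -/

namespace Pool.Agent.PL.CZ

variable {κ τ A : Type} [Field κ] [CommRing A] [Algebra (PP κ τ) A]

private lemma lam_mem (I : Ideal (PP κ τ)) (lam : A →ₗ[PP κ τ] PP κ τ) (y : A)
    (hy : y ∈ I.map (algebraMap (PP κ τ) A)) : ∀ a, lam (a * y) ∈ I := by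
  unfold Ideal.map at hy
  refine Submodule.span_induction (p := fun y _ => ∀ a, lam (a * y) ∈ I) ?_ ?_ ?_ ?_ hy
  · rintro _ ⟨p, hp, rfl⟩ a
    have h1 : a * algebraMap (PP κ τ) A p = p • a := by rw [Algebra.smul_def, mul_comm]
    rw [h1, map_smul, smul_eq_mul]
    exact I.mul_mem_right _ hp
  · intro a
    rw [mul_zero, map_zero]
    exact I.zero_mem
  · intro x y _ _ hx hy a
    rw [mul_add, map_add]
    exact I.add_mem (hx a) (hy a)
  · intro c x _ hx a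
    rw [smul_eq_mul, ← mul_assoc]
    exact hx _

private lemma lam_xr (lam : A →ₗ[PP κ τ] PP κ τ) (i : τ) (M : ℕ) (a y : A) :
    lam (a * (xr κ A i ^ M * y)) = MvPolynomial.X (Sum.inr i) ^ M * lam (a * y) := by
  have h1 : a * (xr κ A i ^ M * y) =
      ((MvPolynomial.X (Sum.inr i) : PP κ τ) ^ M) • (a * y) := by
    rw [Algebra.smul_def, map_pow, xr]
    ring
  rw [h1, map_smul, smul_eq_mul]

private lemma glue' (E : FIdem κ τ A) (lam : A →ₗ[PP κ τ] PP κ τ) (a : A) (n : ℕ) (i j : τ) :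
    MvPolynomial.X (Sum.inr j) ^ E.c n * lam (a * E.b n i) -
      MvPolynomial.X (Sum.inr i) ^ E.c n * lam (a * E.b n j) ∈ xx κ τ ^ n := by
  obtain ⟨M, hM⟩ := E.glue n i j
  have h1 := lam_mem _ lam _ hM a
  rw [lam_xr, mul_sub, map_sub, lam_xr, lam_xr] at h1
  exact cancel n M i _ h1

private lemma comp' (E : FIdem κ τ A) (lam : A →ₗ[PP κ τ] PP κ τ) (a : A) (n : ℕ) (i : τ) :
    MvPolynomial.X (Sum.inr i) ^ E.c n * lam (a * E.b (n + 1) i) -
      MvPolynomial.X (Sum.inr i) ^ E.c (n + 1) * lam (a * E.b n i) ∈ xx κ τ ^ n := by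
  obtain ⟨M, hM⟩ := E.comp n i
  have h1 := lam_mem _ lam _ hM a
  rw [lam_xr, mul_sub, map_sub, lam_xr, lam_xr] at h1
  exact cancel n M i _ h1

private lemma idem' (E : FIdem κ τ A) (lam : A →ₗ[PP κ τ] PP κ τ) (a : A) (n : ℕ) (i : τ) :
    lam (a * E.b n i * E.b n i) -
      MvPolynomial.X (Sum.inr i) ^ E.c n * lam (a * E.b n i) ∈ xx κ τ ^ n := by
  have h1 := lam_mem _ lam _ (E.idem n i) a
  rw [mul_sub, map_sub, lam_xr, ← mul_assoc] at h1
  exact h1

private lemma rp_add (E : FIdem κ τ A) (lam : A →ₗ[PP κ τ] PP κ τ) (a a' : A) (T T' : PP κ τ)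
    (h : Rp E lam a T) (h' : Rp E lam a' T') : Rp E lam (a + a') (T + T') := by
  intro n i
  have h1 := (xx κ τ ^ n).add_mem (h n i) (h' n i)
  have h2 : MvPolynomial.X (Sum.inr i) ^ E.c n * (T + T') - lam ((a + a') * E.b n i) =
      (MvPolynomial.X (Sum.inr i) ^ E.c n * T - lam (a * E.b n i)) +
      (MvPolynomial.X (Sum.inr i) ^ E.c n * T' - lam (a' * E.b n i)) := by
    rw [add_mul, map_add]
    ring
  rw [h2]
  exact h1

private lemma rp_smul (E : FIdem κ τ A) (lam : A →ₗ[PP κ τ] PP κ τ) (a : A) (p T : PP κ τ)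
    (h : Rp E lam a T) : Rp E lam (p • a) (p * T) := by
  intro n i
  have h1 := (xx κ τ ^ n).mul_mem_left p (h n i)
  have h2 : MvPolynomial.X (Sum.inr i) ^ E.c n * (p * T) - lam ((p • a) * E.b n i) =
      p * (MvPolynomial.X (Sum.inr i) ^ E.c n * T - lam (a * E.b n i)) := by
    rw [smul_mul_assoc, map_smul, smul_eq_mul]
    ring
  rw [h2]
  exact h1

theorem exists_rp (E : FIdem κ τ A) (hτ : ∃ i j : τ, i ≠ j) (lam : A →ₗ[PP κ τ] PP κ τ) (a : A) :
    ∃ T, Rp E lam a T := by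
  obtain ⟨i₀, j₀, hij⟩ := hτ
  obtain ⟨C, hC⟩ := E.bdd lam a
  have hex : ∀ n, ∃ T : PP κ τ, T.totalDegree ≤ C ∧
      lam (a * E.b n i₀) - MvPolynomial.X (Sum.inr i₀) ^ E.c n * T ∈ xx κ τ ^ n := fun n =>
    common n (E.c n) (E.c n) C i₀ j₀ hij _ _ (hC n i₀) (glue' E lam a n i₀ j₀)
  choose T hTd hT using hex
  have hall : ∀ n j, MvPolynomial.X (Sum.inr j) ^ E.c n * T n - lam (a * E.b n j) ∈
      xx κ τ ^ n := by
    intro n j
    apply cancel n (E.c n) i₀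
    have h1 := (xx κ τ ^ n).sub_mem (glue' E lam a n i₀ j)
      ((xx κ τ ^ n).mul_mem_left (MvPolynomial.X (Sum.inr j) ^ E.c n) (hT n))
    have h2 : (MvPolynomial.X (Sum.inr i₀) ^ E.c n *
        (MvPolynomial.X (Sum.inr j) ^ E.c n * T n - lam (a * E.b n j)) : PP κ τ) =
        MvPolynomial.X (Sum.inr j) ^ E.c n * lam (a * E.b n i₀) -
        MvPolynomial.X (Sum.inr i₀) ^ E.c n * lam (a * E.b n j) -
        MvPolynomial.X (Sum.inr j) ^ E.c n *
          (lam (a * E.b n i₀) - MvPolynomial.X (Sum.inr i₀) ^ E.c n * T n) := by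
      ring
    rw [h2]
    exact h1
  have hstep : ∀ n, T (n + 1) - T n ∈ xx κ τ ^ n := by
    intro n
    apply cancel n (E.c n + E.c (n + 1)) i₀
    have h1 : MvPolynomial.X (Sum.inr i₀) ^ E.c (n + 1) * T (n + 1) -
        lam (a * E.b (n + 1) i₀) ∈ xx κ τ ^ n :=
      Ideal.pow_le_pow_right (Nat.le_succ n) (hall (n + 1) i₀)
    have h2 := (xx κ τ ^ n).sub_mem ((xx κ τ ^ n).add_mem
      ((xx κ τ ^ n).mul_mem_left (MvPolynomial.X (Sum.inr i₀) ^ E.c n) h1)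
      (comp' E lam a n i₀))
      ((xx κ τ ^ n).mul_mem_left (MvPolynomial.X (Sum.inr i₀) ^ E.c (n + 1)) (hall n i₀))
    have h3 : (MvPolynomial.X (Sum.inr i₀) ^ (E.c n + E.c (n + 1)) * (T (n + 1) - T n) :
        PP κ τ) =
        MvPolynomial.X (Sum.inr i₀) ^ E.c n *
          (MvPolynomial.X (Sum.inr i₀) ^ E.c (n + 1) * T (n + 1) - lam (a * E.b (n + 1) i₀)) +
        (MvPolynomial.X (Sum.inr i₀) ^ E.c n * lam (a * E.b (n + 1) i₀) -
          MvPolynomial.X (Sum.inr i₀) ^ E.c (n + 1) * lam (a * E.b n i₀)) -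
        MvPolynomial.X (Sum.inr i₀) ^ E.c (n + 1) *
          (MvPolynomial.X (Sum.inr i₀) ^ E.c n * T n - lam (a * E.b n i₀)) := by
      ring
    rw [h3]
    exact h2
  have hge : ∀ n m, n ≤ m → T m - T n ∈ xx κ τ ^ n := by
    intro n m hnm
    induction m, hnm using Nat.le_induction with
    | base => rw [sub_self]; exact (xx κ τ ^ n).zero_mem
    | succ m hm ih =>
      have h1 := (xx κ τ ^ n).add_mem
        (Ideal.pow_le_pow_right hm (hstep m) : T (m + 1) - T m ∈ xx κ τ ^ n) ih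
      rwa [sub_add_sub_cancel] at h1
  have hconst : ∀ m, C + 1 ≤ m → T m = T (C + 1) := by
    intro m hm
    have h1 := hge (C + 1) m hm
    have h2 : (T m - T (C + 1)).totalDegree < C + 1 := by
      refine lt_of_le_of_lt (MvPolynomial.totalDegree_sub _ _) ?_
      exact lt_of_le_of_lt (max_le (hTd m) (hTd (C + 1))) (Nat.lt_succ_self C)
    exact sub_eq_zero.1 (eq_zero_of_lt _ _ h1 h2)
  refine ⟨T (C + 1), ?_⟩
  intro n i
  have h1 : T (C + 1) - T n ∈ xx κ τ ^ n := by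
    rcases le_total n (C + 1) with h | h
    · exact hge n (C + 1) h
    · rw [hconst n h, sub_self]
      exact (xx κ τ ^ n).zero_mem
  have h2 := (xx κ τ ^ n).add_mem
    ((xx κ τ ^ n).mul_mem_left (MvPolynomial.X (Sum.inr i) ^ E.c n) h1) (hall n i)
  have h3 : (MvPolynomial.X (Sum.inr i) ^ E.c n * T (C + 1) - lam (a * E.b n i) : PP κ τ) =
      MvPolynomial.X (Sum.inr i) ^ E.c n * (T (C + 1) - T n) +
      (MvPolynomial.X (Sum.inr i) ^ E.c n * T n - lam (a * E.b n i)) := by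
    ring
  rw [h3]
  exact h2

theorem rp_unique [Nonempty τ] (E : FIdem κ τ A) (lam : A →ₗ[PP κ τ] PP κ τ) (a : A)
    (T T' : PP κ τ) (h : Rp E lam a T) (h' : Rp E lam a T') : T = T' := by
  obtain ⟨i⟩ := (inferInstance : Nonempty τ)
  have h1 : ∀ n, T - T' ∈ xx κ τ ^ n := by
    intro n
    apply cancel n (E.c n) i
    have h2 := (xx κ τ ^ n).sub_mem (h n i) (h' n i)
    have h3 : (MvPolynomial.X (Sum.inr i) ^ E.c n * (T - T') : PP κ τ) =
        MvPolynomial.X (Sum.inr i) ^ E.c n * T - lam (a * E.b n i) -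
        (MvPolynomial.X (Sum.inr i) ^ E.c n * T' - lam (a * E.b n i)) := by
      ring
    rw [h3]
    exact h2
  exact sub_eq_zero.1 (eq_zero_of_lt _ _ (h1 ((T - T').totalDegree + 1)) (Nat.lt_succ_self _))

theorem exists_eps (E : FIdem κ τ A) (hτ : ∃ i j : τ, i ≠ j) (lam : A →ₗ[PP κ τ] PP κ τ) :
    ∃ mu : A →ₗ[PP κ τ] PP κ τ, ∀ a, Rp E lam a (mu a) := by
  have hne : Nonempty τ := ⟨hτ.choose⟩
  have hex : ∀ a, ∃ T, Rp E lam a T := exists_rp E hτ lam
  choose f hf using hex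
  refine ⟨{ toFun := f, map_add' := ?_, map_smul' := ?_ }, hf⟩
  · intro a a'
    exact rp_unique E lam (a + a') _ _ (hf (a + a')) (rp_add E lam a a' _ _ (hf a) (hf a'))
  · intro p a
    exact rp_unique E lam (p • a) _ _ (hf (p • a)) (rp_smul E lam a p _ (hf a))

theorem eps_eps (E : FIdem κ τ A) (lam mu : A →ₗ[PP κ τ] PP κ τ)
    (h : ∀ a, Rp E lam a (mu a)) : ∀ a, Rp E mu a (mu a) := by
  intro a n i
  apply cancel n (E.c n) i
  have h1 := h (a * E.b n i) n i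
  have h2 := idem' E lam a n i
  have h3 := h a n i
  have h4 := (xx κ τ ^ n).sub_mem ((xx κ τ ^ n).sub_mem
    ((xx κ τ ^ n).mul_mem_left (MvPolynomial.X (Sum.inr i) ^ E.c n) h3) h2) h1
  have h5 : (MvPolynomial.X (Sum.inr i) ^ E.c n *
      (MvPolynomial.X (Sum.inr i) ^ E.c n * mu a - mu (a * E.b n i)) : PP κ τ) =
      MvPolynomial.X (Sum.inr i) ^ E.c n *
        (MvPolynomial.X (Sum.inr i) ^ E.c n * mu a - lam (a * E.b n i)) -
      (lam (a * E.b n i * E.b n i) -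
        MvPolynomial.X (Sum.inr i) ^ E.c n * lam (a * E.b n i)) -
      (MvPolynomial.X (Sum.inr i) ^ E.c n * mu (a * E.b n i) -
        lam (a * E.b n i * E.b n i)) := by
    ring
  rw [h5]
  exact h4

end Pool.Agent.PL.CZ
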